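import Pool.Agent.H680_DP.Defs

set_option autoImplicit false

namespace Pool.Agent.H680_DP

open Finset Filter Topology Pool.Agent.H680_CP

/-- complex version of `E` -/
noncomputable def EC (q : ℂ) (a m : ℕ) : ℂ := ∏' j : ℕ, (1 - q ^ (a + m * j))

theorem EC_summable_bound (r : ℝ) (hr0 : 0 ≤ r) (hr : r < 1) (a m : ℕ) (hm : 0 < m) :
    Summable (fun j : ℕ => r ^ (a + m * j)) := by
  have h1 : Summable (fun j : ℕ => r ^ a * (r ^ m) ^ j) := by
    apply Summable.mul_left
    apply summable_geometric_of_lt_one (by positivity)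
    exact pow_lt_one₀ hr0 hr hm.ne'
  refine h1.congr fun j => ?_
  rw [pow_add, pow_mul]

theorem EC_multipliable (q : ℂ) (hq : ‖q‖ < 1) (a m : ℕ) (hm : 0 < m) :
    Multipliable (fun j : ℕ => (1 - q ^ (a + m * j))) := by
  have h : Summable (fun j : ℕ => ‖-(q ^ (a + m * j))‖) := by
    refine (EC_summable_bound ‖q‖ (norm_nonneg _) hq a m hm).congr fun j => ?_
    rw [norm_neg, norm_pow]
  have h2 := multipliable_one_add_of_summable h
  refine h2.congr fun j => ?_
  ring

theorem EC_ofReal (q : ℝ) (hq0 : 0 < q) (hq1 : q < 1) (a m : ℕ) (hm : 0 < m) :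
    EC (q : ℂ) a m = ((E q a m : ℝ) : ℂ) := by
  have h : Summable (fun j : ℕ => ‖-(q ^ (a + m * j))‖) := by
    refine (EC_summable_bound q hq0.le hq1 a m hm).congr fun j => ?_
    rw [norm_neg, norm_pow, Real.norm_eq_abs, abs_of_pos hq0]
  have h2 : Multipliable (fun j : ℕ => (1 - q ^ (a + m * j))) :=
    (multipliable_one_add_of_summable h).congr fun j => by ring
  have h3 := h2.hasProd.map Complex.ofRealHom Complex.continuous_ofReal
  have h4 := h3.tprod_eq
  have h5 : ((∏' b : ℕ, (1 - q ^ (a + m * b)) : ℝ) : ℂ) =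
      Complex.ofRealHom (∏' b : ℕ, (1 - q ^ (a + m * b))) := rfl
  unfold EC E
  rw [h5, ← h4]
  congr 1
  funext j
  simp

theorem EC_differentiableOn (a m : ℕ) (hm : 0 < m) :
    DifferentiableOn ℂ (fun q : ℂ => EC q a m) (Metric.ball 0 1) := by
  have key : MultipliableLocallyUniformlyOn (fun (j : ℕ) (q : ℂ) => 1 - q ^ (a + m * j))
      (Metric.ball (0 : ℂ) 1) := by
    use fun q => ∏' j : ℕ, (1 - q ^ (a + m * j))
    simp_rw [sub_eq_add_neg]
    apply hasProdLocallyUniformlyOn_of_forall_compact Metric.isOpen_ball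
    intro K hK hcK
    rcases K.eq_empty_or_nonempty with hN | hN
    · simpa [hasProdUniformlyOn_iff_tendstoUniformlyOn, hN] using tendstoUniformlyOn_empty
    · obtain ⟨q₀, hq₀, _, HB⟩ := hcK.exists_sSup_image_eq_and_ge hN
        (show ContinuousOn (fun q : ℂ => ‖q‖) K by fun_prop)
      have hq1 : ‖q₀‖ < 1 := by simpa [Metric.mem_ball, dist_zero_right] using hK hq₀
      refine (EC_summable_bound ‖q₀‖ (norm_nonneg _) hq1 a m hm).hasProdUniformlyOn_nat_one_add
        hcK (.of_forall fun n x hx => ?_) (fun _ => by fun_prop)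
      simpa using pow_le_pow_left₀ (norm_nonneg _) (HB x hx) (a + m * n)
  exact key.hasProdLocallyUniformlyOn.differentiableOn
    (.of_forall fun _ => by simpa [Finset.prod_fn] using
      DifferentiableOn.finsetProd (fun _ _ => by fun_prop)) Metric.isOpen_ball

theorem EC_ne_zero (q : ℂ) (hq : ‖q‖ < 1) (a m : ℕ) (ha : 0 < a) (hm : 0 < m) :
    EC q a m ≠ 0 := by
  have h := tprod_one_add_ne_zero_of_summable (f := fun j : ℕ => -(q ^ (a + m * j))) ?_ ?_
  · unfold EC
    simpa [sub_eq_add_neg] using h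
  · intro j h0
    have h1 : q ^ (a + m * j) = 1 := by linear_combination -h0
    have h2 : ‖q‖ ^ (a + m * j) = 1 := by rw [← norm_pow, h1, norm_one]
    have h3 : ‖q‖ ^ (a + m * j) < 1 := pow_lt_one₀ (norm_nonneg _) hq (by omega)
    linarith
  · refine (EC_summable_bound ‖q‖ (norm_nonneg _) hq a m hm).congr fun j => ?_
    rw [norm_neg, norm_pow]

theorem hasSum_complex (c : ℕ → ℕ) (R : ℂ → ℂ) (hR : DifferentiableOn ℂ R (Metric.ball 0 1))
    (h : ∀ x : ℝ, 0 < x → x < 1 → HasSum (fun N => ((c N : ℕ) : ℂ) * (x : ℂ) ^ N) (R x))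
    (q : ℂ) (hq : ‖q‖ < 1) : HasSum (fun N => ((c N : ℕ) : ℂ) * q ^ N) (R q) := by
  have hs : ∀ x : ℝ, 0 < x → x < 1 → Summable (fun N => (c N : ℝ) * x ^ N) := by
    intro x hx0 hx1
    have h1 := (h x hx0 hx1).summable.norm
    refine h1.congr fun N => ?_
    rw [norm_mul, norm_pow, Complex.norm_natCast, Complex.norm_real, Real.norm_eq_abs,
      abs_of_pos hx0]
  have hle : ∀ (x : ℝ) (w : ℂ), ‖w‖ ≤ x → ∀ N, ‖((c N : ℕ) : ℂ) * w ^ N‖ ≤ (c N : ℝ) * x ^ N := by
    intro x w hw N
    rw [norm_mul, norm_pow, Complex.norm_natCast]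
    gcongr
  have hsum : ∀ w : ℂ, ‖w‖ < 1 → Summable (fun N => ((c N : ℕ) : ℂ) * w ^ N) := by
    intro w hw
    obtain ⟨x, hx1, hx2⟩ := exists_between hw
    exact Summable.of_norm_bounded (hs x ((norm_nonneg w).trans_lt hx1) hx2) (hle x w hx1.le)
  set S : ℂ → ℂ := fun w => ∑' N, ((c N : ℕ) : ℂ) * w ^ N with hS
  have hSd : DifferentiableOn ℂ S (Metric.ball 0 1) := by
    intro w hw
    have hw' : ‖w‖ < 1 := by simpa using hw
    obtain ⟨x, hx1, hx2⟩ := exists_between hw'
    have hx0 : 0 < x := (norm_nonneg w).trans_lt hx1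
    have hd : DifferentiableOn ℂ S (Metric.ball 0 x) := by
      refine Complex.differentiableOn_tsum_of_summable_norm (hs x hx0 hx2)
        (fun N => by fun_prop) Metric.isOpen_ball ?_
      intro N z hz
      have hz' : ‖z‖ < x := by simpa using hz
      exact hle x z hz'.le N
    have hmem : Metric.ball (0 : ℂ) x ∈ 𝓝 w := Metric.isOpen_ball.mem_nhds (by simpa using hx1)
    exact (hd.differentiableAt hmem).differentiableWithinAt
  have hSa := hSd.analyticOnNhd Metric.isOpen_ball
  have hRa := hR.analyticOnNhd Metric.isOpen_ball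
  have hpre : IsPreconnected (Metric.ball (0 : ℂ) 1) := (convex_ball 0 1).isPreconnected
  have heq : Set.EqOn S R (Metric.ball (0 : ℂ) 1) := by
    refine hSa.eqOn_of_preconnected_of_frequently_eq hRa hpre (z₀ := ((1 / 2 : ℝ) : ℂ)) ?_ ?_
    · rw [Metric.mem_ball, dist_zero_right, Complex.norm_real, Real.norm_eq_abs]
      norm_num [abs_of_pos]
    · have ht : Tendsto (fun n : ℕ => ((1 / 2 + 1 / ((n : ℝ) + 3) : ℝ) : ℂ)) atTop
          (𝓝[≠] (((1 / 2 : ℝ)) : ℂ)) := by
        refine tendsto_nhdsWithin_iff.2 ⟨?_, Eventually.of_forall fun n => ?_⟩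
        · refine (Complex.continuous_ofReal.tendsto _).comp ?_
          have h1 : Tendsto (fun n : ℕ => (1 : ℝ) / ((n : ℝ) + 3)) atTop (𝓝 0) := by
            have := (tendsto_one_div_add_atTop_nhds_zero_nat (𝕜 := ℝ)).comp
              (tendsto_add_atTop_nat 2)
            refine this.congr fun n => ?_
            simp only [Function.comp_apply]
            push_cast
            congr 1
            ring
          simpa using h1.const_add (1 / 2 : ℝ)
        · simp only [Set.mem_compl_iff, Set.mem_singleton_iff, Complex.ofReal_inj]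
          have : (0 : ℝ) < 1 / ((n : ℝ) + 3) := by positivity
          linarith
      refine ht.frequently (Frequently.of_forall fun n => ?_)
      have hx0 : (0 : ℝ) < 1 / 2 + 1 / ((n : ℝ) + 3) := by positivity
      have hx1 : 1 / 2 + 1 / ((n : ℝ) + 3) < (1 : ℝ) := by
        have : (1 : ℝ) / ((n : ℝ) + 3) ≤ 1 / 3 := by
          apply one_div_le_one_div_of_le (by norm_num)
          have : (0 : ℝ) ≤ n := Nat.cast_nonneg n
          linarith
        linarith
      exact (h _ hx0 hx1).tsum_eq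
  have hqm : q ∈ Metric.ball (0 : ℂ) 1 := by simpa using hq
  rw [← heq hqm]
  exact (hsum q hq).hasSum

end Pool.Agent.H680_DP
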