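import Pool.Agent.H680_DP.DDb

set_option autoImplicit false

namespace Pool.Agent.H680_DP

open Finset Pool.Agent.H680_CP

/-! ### Surjectivity -/

/-- The construction of the family from the table of maximal path sums. -/
theorem surjD_aux (n : ℕ) (k : ℕ → ℕ) (l : ℕ) (T : ℕ → ℕ → ℕ)
    (P0 : ∀ x, T 0 x = 0)
    (P1 : ∀ c x, c ≤ 2 * n + 2 → Odd (c + x) → T c x ≤ T (c + 1) (x + 1))
    (P2 : ∀ c x, c ≤ 2 * n + 2 → Odd (c + (x + 1)) → T c (x + 1) ≤ T (c + 1) x)
    (P3 : ∀ x, T (2 * n + 2) x = ∑ t ∈ range (n + 2), k t)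
    (P3' : ∀ x, T (2 * n + 3) x = ∑ t ∈ range (n + 2), k t)
    (P4 : ∀ j ≤ n, T (2 * j + 1) 0 = ∑ t ∈ range (j + 1), k t)
    (P6 : ∀ c, c ≤ 2 * n + 1 → T c (2 * l) = 0) :
    ∃ h : ℕ → Fin (∑ t ∈ range (n + 2), k t) → Bool,
      h ∈ Hist _ (2 * l) ∧
      (∀ x ≤ 2 * l, ValidD n x (pos (fun t : Fin (∑ t ∈ range (n + 2), k t) => bposD n k t) h x)) ∧
      (∀ t : Fin (∑ t ∈ range (n + 2), k t),
        2 * pos (fun t : Fin (∑ t ∈ range (n + 2), k t) => bposD n k t) h (2 * l) t =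
          ((2 * l : ℕ) : ℤ) + 2 * n + 2 * (t : ℕ) + 4) ∧
      (∀ c x, c ≤ 2 * n + 1 → x ≤ 2 * l → Odd (c + x) →
        nD (fun t : Fin (∑ t ∈ range (n + 2), k t) => bposD n k t) h c x = T c x) := by
  classical
  set b := (fun t : Fin (∑ t ∈ range (n + 2), k t) => bposD n k t) with hb
  -- two steps up a column
  have hcol : ∀ c x, c ≤ 2 * n + 1 → Odd (c + x) → T c x ≤ T (c + 2) x := by
    intro c x hc hpar
    refine (P1 c x (by omega) hpar).trans (P2 (c + 1) x (by omega) ?_)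
    obtain ⟨r, hr⟩ := hpar
    exact ⟨r + 1, by omega⟩
  have hcol2 : ∀ d c x, c + 2 * d ≤ 2 * n + 3 → Odd (c + x) → T c x ≤ T (c + 2 * d) x := by
    intro d
    induction d with
    | zero => intro c x _ _; simp
    | succ d ih =>
      intro c x hc hpar
      have h1 := ih c x (by omega) hpar
      have h2 := hcol (c + 2 * d) x (by omega) (by
        obtain ⟨r, hr⟩ := hpar
        exact ⟨r + d, by omega⟩)
      exact h1.trans h2
  have hTle : ∀ c x, c ≤ 2 * n + 3 → Odd (c + x) → T c x ≤ ∑ t ∈ range (n + 2), k t := by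
    intro c x hc hpar
    rcases Nat.even_or_odd c with ⟨r, hr⟩ | ⟨r, hr⟩
    · have h1 := hcol2 (n + 1 - r) c x (by omega) hpar
      have e1 : c + 2 * (n + 1 - r) = 2 * n + 2 := by omega
      rw [e1, P3] at h1
      exact h1
    · have h1 := hcol2 (n + 1 - r) c x (by omega) hpar
      have e1 : c + 2 * (n + 1 - r) = 2 * n + 3 := by omega
      rw [e1, P3'] at h1
      exact h1
  -- the heights
  set S : ℕ → Fin (∑ t ∈ range (n + 2), k t) → Set ℕ :=
    fun x t => {y | y ≤ 2 * n + 3 ∧ Odd (y + x) ∧ (t : ℕ) < T y x} with hS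
  have hSne : ∀ x t, (S x t).Nonempty := by
    intro x t
    rcases Nat.even_or_odd x with ⟨r, hr⟩ | ⟨r, hr⟩
    · exact ⟨2 * n + 3, by omega, ⟨r + n + 1, by omega⟩, by rw [P3']; exact t.2⟩
    · exact ⟨2 * n + 2, by omega, ⟨r + n + 1, by omega⟩, by rw [P3]; exact t.2⟩
  set Y : ℕ → Fin (∑ t ∈ range (n + 2), k t) → ℕ := fun x t => sInf (S x t) with hY
  have Y1 : ∀ x (t : Fin (∑ t ∈ range (n + 2), k t)), Y x t ≤ 2 * n + 3 ∧ Odd (Y x t + x) ∧ (t : ℕ) < T (Y x t) x :=
    fun x t => Nat.sInf_mem (hSne x t)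
  have Ymin : ∀ x (t : Fin (∑ t ∈ range (n + 2), k t)) y, y ≤ 2 * n + 3 → Odd (y + x) → (t : ℕ) < T y x → Y x t ≤ y :=
    fun x t y h1 h2 h3 => Nat.sInf_le ⟨h1, h2, h3⟩
  have Y2 : ∀ x (t : Fin (∑ t ∈ range (n + 2), k t)) c, c ≤ 2 * n + 3 → Odd (c + x) → (Y x t ≤ c ↔ (t : ℕ) < T c x) := by
    intro x t c hc hpar
    constructor
    · intro h1
      obtain ⟨_, h2, h3⟩ := Y1 x t
      obtain ⟨r, hr⟩ := hpar
      obtain ⟨s, hs⟩ := h2
      have h4 := hcol2 (r - s) (Y x t) x (by omega) ⟨s, hs⟩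
      have e1 : Y x t + 2 * (r - s) = c := by omega
      rw [e1] at h4
      exact lt_of_lt_of_le h3 h4
    · exact Ymin x t c hc hpar
  have Y5 : ∀ x t, 1 ≤ Y x t := by
    intro x t
    by_contra hcon
    have h0 : Y x t = 0 := by omega
    have := (Y1 x t).2.2
    rw [h0, P0] at this
    omega
  have Y3 : ∀ x t, Y (x + 1) t = Y x t + 1 ∨ Y (x + 1) t + 1 = Y x t := by
    intro x t
    obtain ⟨a1, a2, a3⟩ := Y1 x t
    obtain ⟨b1, b2, b3⟩ := Y1 (x + 1) t
    have h1 : Y (x + 1) t ≤ Y x t + 1 := by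
      rcases Nat.lt_or_ge (Y x t) (2 * n + 3) with h | h
      · apply Ymin (x + 1) t (Y x t + 1) (by omega)
        · obtain ⟨r, hr⟩ := a2
          exact ⟨r + 1, by omega⟩
        · exact lt_of_lt_of_le a3 (P1 _ _ (by omega) a2)
      · omega
    have h2 : Y x t ≤ Y (x + 1) t + 1 := by
      rcases Nat.lt_or_ge (Y (x + 1) t) (2 * n + 3) with h | h
      · apply Ymin x t (Y (x + 1) t + 1) (by omega)
        · obtain ⟨r, hr⟩ := b2
          exact ⟨r, by omega⟩
        · exact lt_of_lt_of_le b3 (P2 _ _ (by omega) b2)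
      · omega
    obtain ⟨r, hr⟩ := a2
    obtain ⟨s, hs⟩ := b2
    omega
  have Y6 : ∀ x t t', t ≤ t' → Y x t ≤ Y x t' := by
    intro x t t' htt'
    obtain ⟨b1, b2, b3⟩ := Y1 x t'
    exact Ymin x t _ b1 b2 (lt_of_le_of_lt (show (t : ℕ) ≤ t' from htt') b3)
  have Y7 : ∀ t, Y (2 * l) t = 2 * n + 3 := by
    intro t
    obtain ⟨b1, b2, b3⟩ := Y1 (2 * l) t
    by_contra hcon
    have h1 : Y (2 * l) t ≤ 2 * n + 1 := by
      obtain ⟨r, hr⟩ := b2
      omega
    rw [P6 _ h1] at b3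
    omega
  have P4' : ∀ j ≤ n + 1, T (2 * j + 1) 0 = ∑ t ∈ range (j + 1), k t := by
    intro j hj
    rcases Nat.lt_or_ge n j with h1 | h1
    · have e1 : j = n + 1 := by omega
      subst e1
      exact P3' 0
    · exact P4 j h1
  have Y4 : ∀ t : Fin (∑ t ∈ range (n + 2), k t),
      ((Y 0 t : ℕ) : ℤ) = 2 * b t - 1 - 2 * (t : ℕ) := by
    intro t
    obtain ⟨b1, b2, b3⟩ := Y1 0 t
    have hct := d_ct_le (n + 1) k t
    obtain ⟨r, hr⟩ := b2
    have h5 := Y5 0 t
    have hr' : Y 0 t = 2 * r + 1 := by omega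
    -- r = c_t
    have h1 : r ≤ ((Finset.Icc 1 (n + 1)).filter fun j => ∑ i ∈ range j, k i ≤ (t : ℕ)).card := by
      rw [d_ct_ge (n + 1) k t r (by omega)]
      by_contra hcon
      have hr0 : 0 < r := by
        by_contra h0
        have : r = 0 := by omega
        subst this
        simp at hcon
      have h2 := (Y2 0 t (2 * (r - 1) + 1) (by omega) ⟨r - 1, by omega⟩).2 (by
        rw [P4' _ (by omega)]
        have e1 : r - 1 + 1 = r := by omega
        rw [e1]
        omega)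
      omega
    have h2 : ((Finset.Icc 1 (n + 1)).filter fun j => ∑ i ∈ range j, k i ≤ (t : ℕ)).card ≤ r := by
      rcases Nat.lt_or_ge n r with hrn | hrn
      · omega
      · by_contra hcon
        have h3 := (d_ct_ge (n + 1) k t (r + 1) (by omega)).1 (by omega)
        rw [← P4' r (by omega), ← hr'] at h3
        omega
    simp only [hb, bposD]
    push_cast
    omega
  -- the family
  set h : ℕ → Fin (∑ t ∈ range (n + 2), k t) → Bool :=
    fun x t => decide (x < 2 * l ∧ Y (x + 1) t = Y x t + 1) with hh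
  have hdY : ∀ x, x ≤ 2 * l → ∀ t, yD b h x t = Y x t := by
    intro x
    induction x with
    | zero =>
      intro _ t
      rw [yD_zero, Y4]
    | succ x ih =>
      intro hx t
      rw [yD_succ, ih (by omega) t]
      simp only [hh, decide_eq_true_eq]
      rcases Y3 x t with h1 | h1
      · rw [if_pos ⟨by omega, h1⟩, h1]; push_cast; ring
      · rw [if_neg (by rintro ⟨_, h2⟩; omega)]; omega
  have hpos : ∀ x, x ≤ 2 * l → ∀ t : Fin (∑ t ∈ range (n + 2), k t),
      2 * pos b h x t = Y x t + x + 1 + 2 * (t : ℕ) := by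
    intro x hx t
    have := hdY x hx t
    simp only [yD] at this
    linarith
  refine ⟨h, ?_, ?_, ?_, ?_⟩
  · rw [d_mem_Hist]
    intro x hx
    funext t
    simp only [hh, decide_eq_false_iff_not]
    rintro ⟨h1, _⟩
    omega
  · intro x hx
    refine ⟨?_, ?_, ?_⟩
    · intro t t' htt'
      have h1 := hpos x hx t
      have h2 := hpos x hx t'
      have h3 := Y6 x t t' htt'.le
      have h4 : (t : ℕ) < t' := htt'
      omega
    · intro t
      have h1 := hpos x hx t
      have h2 := Y5 x t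
      omega
    · intro t
      have h1 := hpos x hx t
      have h2 := (Y1 x t).1
      omega
  · intro t
    rw [hpos (2 * l) le_rfl t, Y7]
    push_cast; ring
  · intro c x hc hx hpar
    unfold nD
    have h1 : (Finset.univ.filter fun t : Fin (∑ t ∈ range (n + 2), k t) => yD b h x t ≤ c) =
        Finset.univ.filter fun t : Fin (∑ t ∈ range (n + 2), k t) => (t : ℕ) < T c x := by
      ext t
      simp only [mem_filter, mem_univ, true_and]
      rw [hdY x hx t, ← Y2 x t c (by omega) hpar]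
      exact Nat.cast_le
    rw [h1, d_initial_card _ _ (hTle c x (by omega) hpar)]

/-- extended table -/
def ttD (n : ℕ) (k : ℕ → ℕ) (f : ℕ → ℕ → ℕ) (c x : ℕ) : ℕ :=
  if c = 2 * n + 1 ∧ x = 0 then ∑ t ∈ range (n + 1), k t
  else if c ≤ 2 * n + 1 then tD n k f c x else ∑ t ∈ range (n + 2), k t

theorem arrD_bound {n k : ℕ} {b : Fin k → ℕ} {h : ℕ → Fin k → Bool} {L : ℕ}
    (hH : h ∈ Hist k L) (hV : ∀ x ≤ L, ValidD n x (pos b h x)) (x c : ℕ)
    (hne : arrD n b h x c ≠ 0) :
    1 ≤ c ∧ c ≤ 2 * n + 1 ∧ 1 ≤ x ∧ x < L ∧ Odd (c + x) := by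
  classical
  unfold arrD at hne
  obtain ⟨t, ht⟩ := Finset.card_ne_zero.1 hne
  rw [mem_filter] at ht
  obtain ⟨_, ht1, ht2⟩ := ht
  obtain ⟨h1, h2, h3, h4⟩ := valleyD_props hH hV ht1
  have h5 := yD_parity b h x t
  rw [ht2] at h5
  exact ⟨by omega, by omega, h1, h2, by exact_mod_cast h5⟩

theorem surj_D (n : ℕ) (k : ℕ → ℕ) (l N : ℕ) (hl : N + 2 * n + 4 ≤ 2 * l) (f : ℕ → ℕ → ℕ)
    (hf : f ∈ SSD (n + 1) k N) :
    ∃ h ∈ FamD n (fun t : Fin (∑ t ∈ range (n + 2), k t) => bposD n k t) (2 * l),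
      wtD n (fun t : Fin (∑ t ∈ range (n + 2), k t) => bposD n k t) (2 * l) h = N ∧
      arrD n (fun t : Fin (∑ t ∈ range (n + 2), k t) => bposD n k t) h = f := by
  classical
  have hm1 : 2 * (n + 1) - 1 = 2 * n + 1 := by omega
  have hm2 : 2 * (n + 1) - 2 = 2 * n := by omega
  unfold SSD at hf
  rw [hm1, hm2, Set.mem_ofPred_eq] at hf
  obtain ⟨hf1, hf2, hf3⟩ := hf
  -- the path sums are at most k
  have hTmax : ∀ x : ℤ, -1 ≤ x → Odd (x + ((2 * n + 1 : ℕ) : ℤ)) →
      tD n k f (2 * n + 1) x ≤ ∑ t ∈ range (n + 2), k t := by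
    intro x hx hpar
    obtain ⟨p, hp0, hp1, hp2, hp3⟩ := tD_path n k f (2 * n + 1) (by omega) x hx hpar
    rw [hp3]
    refine hf3 p hp1 ?_
    intro c hc
    rw [mem_Icc] at hc
    exact hp2 c hc.1 (by omega)
  have hfz : ∀ i c, N < i → f i c = 0 := by
    intro i c hi
    by_contra hcon
    have := (hf1 i c hcon).2.1
    omega
  -- the value at (2n+1, 0)
  have hK2 : ∑ t ∈ range (n + 2), k t = ∑ t ∈ range (n + 1), k t + k (n + 1) := by
    rw [Finset.sum_range_succ]
  have hT0 : tD n k f (2 * n + 1) 0 ≤ ∑ t ∈ range (n + 2), k t :=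
    hTmax 0 (by norm_num) ⟨n, by push_cast; ring⟩
  have hlast := tD_last n k f
  have h2n1 : tD n k f (2 * n) 1 ≤ ∑ t ∈ range (n + 1), k t := by omega
  -- the boundary values
  have hbd : ∀ j, j + 1 ≤ n → tD n k f (2 * j + 1) 0 = ∑ t ∈ range (j + 1), k t := by
    intro j hj
    have h1 := tD_boundary n k f 0 j (by omega)
    have h2 := tD_boundary n k f j (n - 1 - j) (by omega)
    have h3 := (tD_step n k f (n - 1) (by omega)).1
    have h4 := tD_first n k f
    have e1 : j + (n - 1 - j) = n - 1 := by omega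
    have e2 : n - 1 + 1 = n := by omega
    rw [e1, e2] at h2
    rw [e2] at h3
    have h5 : tD n k f (2 * n) (-1) ≤ ∑ t ∈ range (n + 1), k t := by omega
    rw [Finset.sum_range_succ] at h5
    have e3 : ∑ t ∈ range (0 + 1), k t = k 0 := by simp
    simp only [Nat.zero_add, Nat.mul_zero] at h1
    rw [Finset.sum_range_one] at h1
    omega
  have hTT0 : ∀ c x, c ≤ 2 * n + 1 → ¬ (c = 2 * n + 1 ∧ x = 0) →
      ttD n k f c x = tD n k f c x := fun c x hc h0 => by
    unfold ttD
    rw [if_neg h0, if_pos hc]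
  have hTT1 : ∀ c x, 2 * n + 1 < c → ttD n k f c x = ∑ t ∈ range (n + 2), k t :=
    fun c x hc => by
    unfold ttD
    rw [if_neg (by omega), if_neg (not_le.2 hc)]
  have hTT2 : ttD n k f (2 * n + 1) 0 = ∑ t ∈ range (n + 1), k t := by
    unfold ttD
    rw [if_pos ⟨rfl, rfl⟩]
  obtain ⟨h, hH, hV, hT, hN⟩ := surjD_aux n k l (ttD n k f)
    (by intro x; rw [hTT0 0 x (by omega) (by omega)]; rfl)
    (by
      intro c x hc hpar
      rcases Nat.lt_or_ge c (2 * n + 1) with h1 | h1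
      · rw [hTT0 c x (by omega) (by omega), hTT0 (c + 1) (x + 1) (by omega) (by omega)]
        have := tD_le_right n k f c x (by omega)
        push_cast
        exact this
      · rcases eq_or_lt_of_le h1 with h2 | h2
        · rw [hTT1 (c + 1) (x + 1) (by omega), ← h2]
          by_cases hx : x = 0
          · subst hx
            rw [hTT2, hK2]
            omega
          · rw [hTT0 _ x (by omega) (by omega)]
            apply hTmax x (by omega)
            obtain ⟨r, hr⟩ := hpar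
            exact ⟨r, by omega⟩
        · rw [hTT1 c x (by omega), hTT1 (c + 1) (x + 1) (by omega)])
    (by
      intro c x hc hpar
      rcases Nat.lt_or_ge c (2 * n + 1) with h1 | h1
      · rw [hTT0 c (x + 1) (by omega) (by omega)]
        by_cases hcx : c + 1 = 2 * n + 1 ∧ x = 0
        · obtain ⟨hc1, rfl⟩ := hcx
          rw [hc1, hTT2]
          have e1 : c = 2 * n := by omega
          rw [e1]
          exact h2n1
        · rw [hTT0 (c + 1) x (by omega) hcx]
          have := tD_le_left n k f c x (by omega)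
          push_cast
          exact this
      · rcases eq_or_lt_of_le h1 with h2 | h2
        · rw [hTT0 c (x + 1) (by omega) (by omega), hTT1 (c + 1) x (by omega), ← h2]
          apply hTmax _ (by omega)
          obtain ⟨r, hr⟩ := hpar
          exact ⟨r, by omega⟩
        · rw [hTT1 c (x + 1) (by omega), hTT1 (c + 1) x (by omega)])
    (fun x => hTT1 _ _ (by omega)) (fun x => hTT1 _ _ (by omega))
    (by
      intro j hj
      rcases Nat.lt_or_ge j n with h1 | h1
      · rw [hTT0 (2 * j + 1) 0 (by omega) (by omega)]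
        exact hbd j h1
      · have e1 : j = n := by omega
        subst e1
        exact hTT2)
    (by
      intro c hc
      rw [hTT0 c _ hc (by omega)]
      apply tD_zero n k f N hfz
      omega)
  have harr : arrD n (fun t : Fin (∑ t ∈ range (n + 2), k t) => bposD n k t) h = f := by
    funext x c
    by_cases hcase : 1 ≤ c ∧ c ≤ 2 * n + 1 ∧ 1 ≤ x ∧ x < 2 * l ∧ Odd (c + x)
    · obtain ⟨h1, h2, h3, h4, h5⟩ := hcase
      obtain ⟨c', rfl⟩ : ∃ c', c = c' + 1 := ⟨c - 1, by omega⟩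
      obtain ⟨y, rfl⟩ : ∃ y, x = y + 1 := ⟨x - 1, by omega⟩
      have hpar : Odd (c' + y) := by
        obtain ⟨r, hr⟩ := h5
        exact ⟨r - 1, by omega⟩
      have hpar' : Odd (c' + (y + 2)) := by
        obtain ⟨r, hr⟩ := h5
        exact ⟨r, by omega⟩
      have hrec := nD_rec (b := fun t : Fin (∑ t ∈ range (n + 2), k t) => bposD n k t)
        (h := h) (L := 2 * l) (x := y) (c := c') hV (by omega) h2 hpar
      rw [hN (c' + 1) (y + 1) h2 (by omega) h5, hN c' y (by omega) (by omega) hpar,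
        hN c' (y + 2) (by omega) (by omega) hpar', hTT0 _ _ h2 (by omega),
        hTT0 _ _ (by omega) (by omega), hTT0 _ _ (by omega) (by omega), tD,
        if_neg (by omega)] at hrec
      have e1 : (((y + 1 : ℕ) : ℤ) - 1) = (y : ℤ) := by push_cast; ring
      have e2 : (((y + 1 : ℕ) : ℤ) + 1) = ((y + 2 : ℕ) : ℤ) := by push_cast; ring
      rw [e1, e2] at hrec
      have e3 : fD n k f (c' + 1) ((y + 1 : ℕ) : ℤ) = f (y + 1) (c' + 1) := by
        unfold fD
        rw [if_pos (by omega)]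
        rfl
      rw [e3] at hrec
      omega
    · have h1 : arrD n (fun t : Fin (∑ t ∈ range (n + 2), k t) => bposD n k t) h x c = 0 := by
        by_contra hcon
        exact hcase (arrD_bound hH hV x c hcon)
      have h2 : f x c = 0 := by
        by_contra hcon
        obtain ⟨g1, g2, g3, g4, g5⟩ := hf1 x c hcon
        exact hcase ⟨g3, g4, g1, by omega, g5⟩
      rw [h1, h2]
  refine ⟨h, ?_, ?_, harr⟩
  · rw [FamD, mem_filter]
    exact ⟨hH, hV, hT⟩
  · rw [wtD_eq hH hV N, harr, hf2]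
    intro x c hne _ _
    rw [harr] at hne
    exact (hf1 x c hne).2.1

theorem image_D (n : ℕ) (k : ℕ → ℕ) (l N : ℕ) (hl : N + 2 * n + 4 ≤ 2 * l) :
    (arrD n (fun t : Fin (∑ t ∈ range (n + 2), k t) => bposD n k t)) ''
      (((FamD n (fun t : Fin (∑ t ∈ range (n + 2), k t) => bposD n k t) (2 * l)).filter
      (fun h => wtD n (fun t : Fin (∑ t ∈ range (n + 2), k t) => bposD n k t) (2 * l) h = N) :
        Finset _) : Set _) = SSD (n + 1) k N := by
  ext f
  constructor
  · rintro ⟨h, hh, rfl⟩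
    rw [Finset.mem_coe, mem_filter] at hh
    exact arrD_mem n k l N h hh.1 hh.2
  · intro hf
    obtain ⟨h, h1, h2, h3⟩ := surj_D n k l N hl f hf
    exact ⟨h, by rw [Finset.mem_coe, mem_filter]; exact ⟨h1, h2⟩, h3⟩

theorem finite_D (n : ℕ) (k : ℕ → ℕ) (N : ℕ) : (SSD (n + 1) k N).Finite := by
  rw [← image_D n k (N + n + 2) N (by omega)]
  exact (Finset.finite_toSet _).image _

theorem injOn_D (n : ℕ) (k : ℕ → ℕ) (l N : ℕ) :
    Set.InjOn (arrD n (fun t : Fin (∑ t ∈ range (n + 2), k t) => bposD n k t))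
      (((FamD n (fun t : Fin (∑ t ∈ range (n + 2), k t) => bposD n k t) (2 * l)).filter
      (fun h => wtD n (fun t : Fin (∑ t ∈ range (n + 2), k t) => bposD n k t) (2 * l) h = N) :
        Finset _) : Set _) := by
  intro h hh h' hh' heq
  rw [Finset.mem_coe, mem_filter] at hh hh'
  exact inj_D hh.1 hh'.1 heq

theorem DD_le (n : ℕ) (k : ℕ → ℕ) (l N : ℕ) :
    ((FamD n (fun t : Fin (∑ t ∈ range (n + 2), k t) => bposD n k t) (2 * l)).filter
      (fun h => wtD n (fun t : Fin (∑ t ∈ range (n + 2), k t) => bposD n k t) (2 * l) h = N)).card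
      ≤ (SSD (n + 1) k N).ncard := by
  rw [← Set.ncard_coe_finset, ← (injOn_D n k l N).ncard_image]
  refine Set.ncard_le_ncard ?_ (finite_D n k N)
  rintro f ⟨h, hh, rfl⟩
  rw [Finset.mem_coe, mem_filter] at hh
  exact arrD_mem n k l N h hh.1 hh.2

theorem DD_eq (n : ℕ) (k : ℕ → ℕ) (N : ℕ) : ∃ l0, ∀ l, l0 ≤ l →
    ((FamD n (fun t : Fin (∑ t ∈ range (n + 2), k t) => bposD n k t) (2 * l)).filter
      (fun h => wtD n (fun t : Fin (∑ t ∈ range (n + 2), k t) => bposD n k t) (2 * l) h = N)).card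
      = (SSD (n + 1) k N).ncard := by
  refine ⟨N + n + 2, fun l hl => ?_⟩
  rw [← Set.ncard_coe_finset, ← (injOn_D n k l N).ncard_image, image_D n k l N (by omega)]

end Pool.Agent.H680_DP
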