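import Pool.Agent.H680_DP.T1a
import Pool.Agent.H680_CP.T_LIM

set_option autoImplicit false

namespace Pool.Agent.H680_DP

open Finset Filter Topology Pool.Agent.H680_CP

theorem limD_hasSum_Cf (q : ℝ) (hq0 : 0 < q) (hq1 : q < 1) (K M b : ℕ) (hK : 0 < K) (hb : 0 < b)
    (hbM : b ≤ M) (t : ℤ) :
    HasSum (fun B : ℤ => CfD q K M b t B)
      ((Real.sqrt q) ^ (-t) * phi K (q ^ (2 * M)) t (Real.sqrt q ^ (2 * b - 1))) := by
  have hM : 0 < M := lt_of_lt_of_le hb hbM
  have hM' : (2 * (M : ℤ)) ≠ 0 := by positivity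
  set r := Real.sqrt q with hr
  have hr0 : 0 < r := Real.sqrt_pos.2 hq0
  have hrq : r ^ 2 = q := Real.sq_sqrt hq0.le
  -- the two pieces
  set C1 : ℤ → ℝ := fun B => if (2 * (M : ℤ)) ∣ B - b then
    q ^ ((K : ℤ) * (2 * M * ((B - b) / (2 * M)) ^ 2 + (2 * b - 1) * ((B - b) / (2 * M))) - t * B)
      else 0
    with hC1
  set C2 : ℤ → ℝ := fun B => if (2 * (M : ℤ)) ∣ B + b - 1 then
    - q ^ ((K : ℤ) * (2 * M * ((B + b - 1) / (2 * M)) ^ 2 -
      (2 * b - 1) * ((B + b - 1) / (2 * M))) - t * B) else 0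
    with hC2
  have hsplit : ∀ B, CfD q K M b t B = C1 B + C2 B := by
    intro B
    simp only [CfD, hC1, hC2]
    split_ifs with h1 h2
    · exact absurd h2 (not_both hb hbM B h1)
    · simp
    · simp
    · simp
  -- first piece
  set f1 : ℤ → ℝ := fun s => q ^ ((K : ℤ) * (2 * M * s ^ 2 + (2 * b - 1) * s) -
    t * (b + 2 * M * s)) with hf1
  set f2 : ℤ → ℝ := fun s => - q ^ ((K : ℤ) * (2 * M * s ^ 2 - (2 * b - 1) * s) -
    t * (1 - b + 2 * M * s)) with hf2
  have hKM : (0 : ℤ) < 2 * (K : ℤ) * M := by positivity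
  have s1 : Summable f1 := by
    have := lim_summable_quad q hq0 hq1 (2 * K * M) (K * (2 * b - 1) - 2 * M * t) (-t * b) hKM
    refine this.congr (fun s => ?_)
    simp only [hf1]
    congr 1; ring
  have s2 : Summable f2 := by
    have := (lim_summable_quad q hq0 hq1 (2 * K * M) (-(K * (2 * b - 1)) - 2 * M * t)
      (-t * (1 - b)) hKM).neg
    refine this.congr (fun s => ?_)
    simp only [hf2]
    congr 2; ring
  have i1 : Function.Injective (fun s : ℤ => (b : ℤ) + 2 * M * s) := by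
    intro s s' h
    have : 2 * (M : ℤ) * s = 2 * M * s' := by simpa using h
    exact mul_left_cancel₀ hM' this
  have i2 : Function.Injective (fun s : ℤ => 1 - (b : ℤ) + 2 * M * s) := by
    intro s s' h
    have : 2 * (M : ℤ) * s = 2 * M * s' := by simpa using h
    exact mul_left_cancel₀ hM' this
  have H1 : HasSum C1 (∑' s, f1 s) := by
    rw [← i1.hasSum_iff (f := C1)]
    · have : C1 ∘ (fun s : ℤ => (b : ℤ) + 2 * M * s) = f1 := by
        funext s
        simp only [hC1, hf1, Function.comp_apply]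
        have e1 : ((b : ℤ) + 2 * M * s - b) = 2 * M * s := by ring
        rw [e1, if_pos (Dvd.intro _ rfl), Int.mul_ediv_cancel_left _ hM']
      rw [this]; exact s1.hasSum
    · intro B hB
      simp only [hC1]
      rw [if_neg]
      rintro ⟨s, hs⟩
      exact hB ⟨s, by simp only; linarith⟩
  have H2 : HasSum C2 (∑' s, f2 s) := by
    rw [← i2.hasSum_iff (f := C2)]
    · have : C2 ∘ (fun s : ℤ => 1 - (b : ℤ) + 2 * M * s) = f2 := by
        funext s
        simp only [hC2, hf2, Function.comp_apply]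
        have e1 : (1 - (b : ℤ) + 2 * M * s + b - 1) = 2 * M * s := by ring
        rw [e1, if_pos (Dvd.intro _ rfl), Int.mul_ediv_cancel_left _ hM']
      rw [this]; exact s2.hasSum
    · intro B hB
      simp only [hC2]
      rw [if_neg]
      rintro ⟨s, hs⟩
      exact hB ⟨s, by simp only; linarith⟩
  have H3 := H1.add H2
  have hphi : r ^ (-t) * phi K (q ^ (2 * M)) t (r ^ (2 * b - 1)) = (∑' s, f1 s) + ∑' s, f2 s := by
    rw [← s1.tsum_add s2]
    unfold phi
    rw [← tsum_mul_left]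
    congr 1
    funext s
    simp only [hf1, hf2]
    have hrne : r ≠ 0 := hr0.ne'
    have hb1 : ((2 * b - 1 : ℕ) : ℤ) = 2 * b - 1 := by omega
    have e0 : ∀ e : ℤ, q ^ e = r ^ (2 * e) := by
      intro e
      rw [← hrq, ← zpow_natCast r 2, ← zpow_mul]
      rfl
    have e1 : ((q ^ (2 * M) : ℝ)) ^ ((K : ℤ) * s ^ 2 - t * s) =
        r ^ (2 * ((2 * (M : ℤ)) * ((K : ℤ) * s ^ 2 - t * s))) := by
      rw [← e0, zpow_mul]; congr 1
    have e2 : ∀ e : ℤ, ((r ^ (2 * b - 1) : ℝ)) ^ e = r ^ ((2 * (b : ℤ) - 1) * e) := by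
      intro e; rw [zpow_mul, ← hb1, zpow_natCast]
    rw [e1, e2, e2, e0, e0, mul_sub, mul_sub, ← zpow_add₀ hrne, ← zpow_add₀ hrne,
      ← zpow_add₀ hrne, ← zpow_add₀ hrne, sub_eq_add_neg]
    congr 2
    · ring
    · congr 1; ring
  rw [hphi]
  have h4 : (fun B : ℤ => CfD q K M b t B) = fun B => C1 B + C2 B := funext hsplit
  rw [h4]
  exact H3

theorem limD_Rw_eq_tsum (q : ℝ) (K M b : ℕ) (t : ℤ) (L : ℕ) (a : ℤ) :
    RwD q K M b t L a = ∑' B : ℤ, G q L (a - B) * CfD q K M b t B := by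
  have h1 : (∑' B : ℤ, G q L (a - B) * CfD q K M b t B) =
      ∑' u : ℤ, G q L u * CfD q K M b t (a - u) := by
    rw [← (Equiv.subLeft a).tsum_eq (fun u : ℤ => G q L u * CfD q K M b t (a - u))]
    congr 1
    funext B
    simp
  rw [h1, tsum_eq_sum (s := (range (L + 1)).map Nat.castEmbedding)]
  · rw [Finset.sum_map]
    rfl
  · intro u hu
    rw [G_support, zero_mul]
    by_contra hcon
    push Not at hcon
    apply hu
    rw [Finset.mem_map]
    refine ⟨u.toNat, ?_, ?_⟩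
    · rw [Finset.mem_range]; omega
    · simp only [Nat.castEmbedding_apply]; omega

theorem RwD_tendsto (q : ℝ) (hq0 : 0 < q) (hq1 : q < 1) (K M b : ℕ) (hK : 0 < K) (hb : 0 < b)
    (hbM : b ≤ M) (t v : ℤ) :
    Tendsto (fun l : ℕ => RwD q K M b t (2 * l) ((l : ℤ) + v)) atTop
      (𝓝 ((E q 1 1)⁻¹ * ((Real.sqrt q) ^ (-t) *
        phi K (q ^ (2 * M)) t (Real.sqrt q ^ (2 * b - 1))))) := by
  have hS := limD_hasSum_Cf q hq0 hq1 K M b hK hb hbM t
  rw [← (hS.mul_left (E q 1 1)⁻¹).tsum_eq]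
  simp only [limD_Rw_eq_tsum]
  refine tendsto_tsum_of_dominated_convergence
    (bound := fun B => (E q 1 1)⁻¹ * |CfD q K M b t B|) (hS.summable.abs.mul_left _) ?_ ?_
  · intro B
    refine Tendsto.mul_const _ ?_
    have := G_tendsto q hq0 hq1 (v - B)
    simpa [add_sub_assoc] using this
  · refine Eventually.of_forall (fun l B => ?_)
    have h := G_bounds q hq0 hq1 (2 * l) ((l : ℤ) + v - B)
    rw [Real.norm_eq_abs, abs_mul, abs_of_nonneg h.1]
    exact mul_le_mul_of_nonneg_right h.2 (abs_nonneg _)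

end Pool.Agent.H680_DP
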