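import Pool.Agent.H680_DP.Defs
import Pool.Agent.H680_CP.T_T4

/-!
# Task T4D: the product rearrangement, type D
-/

set_option autoImplicit false

namespace Pool.Agent.H680_DP

open Finset Pool.Agent.H680_CP Pool.Agent.H680_CP.T4aux

namespace T4Daux

/-- The residues modulo `2 M` are `b` and `1 - b` for `1 ≤ b ≤ M`. -/
theorem prod_zmod_symmD (M : ℕ) (hM : 0 < M) [NeZero (2 * M)] (f : ZMod (2 * M) → ℝ) :
    ∏ r : ZMod (2 * M), f r = ∏ b ∈ Icc 1 M, f b * f (1 - b) := by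
  have h0 : ∏ r : ZMod (2 * M), f r = ∏ r ∈ range (2 * M), f (r : ℕ) := by
    rw [← prod_zmod_val (2 * M) fun r => f (r : ℕ)]
    refine Finset.prod_congr rfl fun r _ => ?_
    rw [ZMod.natCast_zmod_val]
  have h00 : f ((2 * M : ℕ) : ZMod (2 * M)) = f ((0 : ℕ) : ZMod (2 * M)) := by
    rw [ZMod.natCast_self, Nat.cast_zero]
  have h0' : ∏ r ∈ range (2 * M), f (r : ℕ) = ∏ r ∈ Ico 1 (2 * M + 1), f (r : ℕ) := by
    rw [Finset.range_eq_Ico, Finset.prod_eq_prod_Ico_succ_bot (by omega : 0 < 2 * M),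
      Finset.prod_Ico_succ_top (by omega : 1 ≤ 2 * M), h00, mul_comm]
  rw [h0, h0', ← Finset.prod_Ico_consecutive _ (by omega : 1 ≤ M + 1)
    (by omega : M + 1 ≤ 2 * M + 1), Finset.prod_mul_distrib]
  have hIcc : Icc 1 M = Ico 1 (M + 1) := by
    ext x
    simp only [Finset.mem_Icc, Finset.mem_Ico]
    omega
  rw [hIcc]
  have h1 : ∏ k ∈ Ico (M + 1) (2 * M + 1), f (k : ℕ) =
      ∏ b ∈ Ico 1 (M + 1), f (1 - (b : ZMod (2 * M))) := by
    have h := Finset.prod_Ico_reflect (fun k : ℕ => f (k : ℕ)) 1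
      (by omega : M + 1 ≤ 2 * M + 1 + 1)
    have e1 : 2 * M + 1 + 1 - (M + 1) = M + 1 := by omega
    have e2 : 2 * M + 1 + 1 - 1 = 2 * M + 1 := by omega
    rw [e1, e2] at h
    rw [← h]
    refine Finset.prod_congr rfl fun b hb => ?_
    have hb' := Finset.mem_Ico.mp hb
    congr 1
    rw [Nat.cast_sub (by omega), Nat.cast_add, ZMod.natCast_self, zero_add, Nat.cast_one]
  rw [h1]

/-- The symmetric version of `vtD`. -/
noncomputable def vzD (q : ℝ) (M a b : ℕ) : ℝ :=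
  gz q M ((b : ZMod (2 * M)) - a) * gz q M ((a : ZMod (2 * M)) - b) *
    (gz q M ((a : ZMod (2 * M)) + b - 1) * gz q M (-((a : ZMod (2 * M)) + b - 1)))

theorem vzD_comm (q : ℝ) (M a b : ℕ) : vzD q M a b = vzD q M b a := by
  rw [vzD, vzD, mul_comm (gz q M ((b : ZMod (2 * M)) - a)), add_comm (a : ZMod (2 * M))]

theorem vzD_pos {q : ℝ} (hq0 : 0 < q) (hq1 : q < 1) {M : ℕ} (hM : 0 < M) (a b : ℕ) :
    0 < vzD q M a b := by
  have := fun r => gz_pos hq0 hq1 hM r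
  rw [vzD]
  exact mul_pos (mul_pos (this _) (this _)) (mul_pos (this _) (this _))

theorem vtD_eq_vz (q : ℝ) (M a b : ℕ) (ha : 0 < a) (hab : a < b) (hb : b ≤ M) :
    vtD q M a b = vzD q M a b := by
  rw [vtD, vzD]
  have e1 : (b : ZMod (2 * M)) - a = ((b - a : ℕ) : ZMod (2 * M)) := by
    rw [Nat.cast_sub hab.le]
  have e2 : (a : ZMod (2 * M)) - b = -((b - a : ℕ) : ZMod (2 * M)) := by
    rw [Nat.cast_sub hab.le, neg_sub]
  have e3 : (a : ZMod (2 * M)) + b - 1 = ((a + b - 1 : ℕ) : ZMod (2 * M)) := by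
    rw [Nat.cast_sub (by omega)]
    push_cast
    ring
  rw [e1, e2, e3, gz_cast q M _ (by omega) (by omega), gz_neg_cast q M _ (by omega) (by omega),
    gz_cast q M _ (by omega) (by omega), gz_neg_cast q M _ (by omega) (by omega)]

/-- The product of all the factors which contain `a`. -/
theorem keyD {q : ℝ} (hq0 : 0 < q) (hq1 : q < 1) {M : ℕ} {a : ℕ} (ha : a ∈ Icc 1 M) :
    E q 1 1 ^ 2 = (E q (2 * a - 1) (2 * M) * E q (2 * M - (2 * a - 1)) (2 * M)) *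
      E q (2 * M) (2 * M) ^ 2 * ∏ b ∈ (Icc 1 M).erase a, vzD q M a b := by
  have ha' := Finset.mem_Icc.mp ha
  have hM : 0 < M := by omega
  have : NeZero (2 * M) := ⟨by omega⟩
  have h1 : E q 1 1 = ∏ r : ZMod (2 * M), gz q M (-a + r) := by
    rw [← prod_gz hq0 hq1 hM]
    exact (Equiv.prod_comp (Equiv.addLeft (-(a : ZMod (2 * M)))) (gz q M)).symm
  have h2 : E q 1 1 = ∏ r : ZMod (2 * M), gz q M (a - r) := by
    rw [← prod_gz hq0 hq1 hM]
    exact (Equiv.prod_comp (Equiv.subLeft (a : ZMod (2 * M))) (gz q M)).symm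
  rw [prod_zmod_symmD M hM] at h1 h2
  rw [← Finset.mul_prod_erase _ _ ha] at h1 h2
  have e3 : gz q M (-(a : ZMod (2 * M)) + a) * gz q M (-(a : ZMod (2 * M)) + (1 - a)) =
      E q (2 * M) (2 * M) * E q (2 * M - (2 * a - 1)) (2 * M) := by
    rw [neg_add_cancel, gz_zero, ← gz_neg_cast q M (2 * a - 1) (by omega) (by omega)]
    congr 2
    rw [Nat.cast_sub (by omega)]
    push_cast
    ring
  have e4 : gz q M ((a : ZMod (2 * M)) - a) * gz q M ((a : ZMod (2 * M)) - (1 - a)) =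
      E q (2 * M) (2 * M) * E q (2 * a - 1) (2 * M) := by
    rw [sub_self, gz_zero, ← gz_cast q M (2 * a - 1) (by omega) (by omega)]
    congr 2
    rw [Nat.cast_sub (by omega)]
    push_cast
    ring
  rw [e3] at h1
  rw [e4] at h2
  have e5 : ∏ b ∈ (Icc 1 M).erase a, vzD q M a b =
      (∏ b ∈ (Icc 1 M).erase a,
        gz q M (-(a : ZMod (2 * M)) + b) * gz q M (-(a : ZMod (2 * M)) + (1 - b))) *
      ∏ b ∈ (Icc 1 M).erase a, gz q M ((a : ZMod (2 * M)) - b) *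
        gz q M ((a : ZMod (2 * M)) - (1 - b)) := by
    rw [← Finset.prod_mul_distrib]
    refine Finset.prod_congr rfl fun b _ => ?_
    rw [vzD]
    have f1 : (b : ZMod (2 * M)) - a = -(a : ZMod (2 * M)) + b := by ring
    have f2 : (a : ZMod (2 * M)) + b - 1 = (a : ZMod (2 * M)) - (1 - b) := by ring
    have f3 : -((a : ZMod (2 * M)) - (1 - b)) = -(a : ZMod (2 * M)) + (1 - b) := by ring
    rw [f1, f2, f3]
    ring
  rw [e5, sq]
  nth_rewrite 1 [h1]
  rw [h2]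
  ring

/-- The product over one side. -/
theorem sideD {q : ℝ} (hq0 : 0 < q) (hq1 : q < 1) (M : ℕ) (A B : Finset ℕ)
    (hAB : Disjoint A B) (hU : A ∪ B = Finset.Icc 1 M) :
    (E q 1 1 ^ A.card) ^ 2 =
      (∏ a ∈ A, E q (2 * a - 1) (2 * M) * E q (2 * M - (2 * a - 1)) (2 * M)) *
      (E q (2 * M) (2 * M) ^ A.card) ^ 2 *
      (∏ a ∈ A, ∏ b ∈ A.filter (fun b => a < b), vtD q M a b) ^ 2 *
      ∏ a ∈ A, ∏ b ∈ B, vzD q M a b := by
  have hmem : ∀ a ∈ A, a ∈ Icc 1 M := fun a ha => hU ▸ Finset.mem_union_left _ ha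
  have h0 : ∏ a ∈ A, ∏ b ∈ A.filter (fun b => a < b), vtD q M a b =
      ∏ a ∈ A, ∏ b ∈ A.filter (fun b => a < b), vzD q M a b := by
    refine Finset.prod_congr rfl fun a ha => Finset.prod_congr rfl fun b hb => ?_
    have h1 := Finset.mem_Icc.mp (hmem a ha)
    have h2 := Finset.mem_filter.mp hb
    have h3 := Finset.mem_Icc.mp (hmem b h2.1)
    exact vtD_eq_vz q M a b (by omega) h2.2 (by omega)
  have h1 : ∀ a ∈ A, ∏ b ∈ (Icc 1 M).erase a, vzD q M a b =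
      (∏ b ∈ A.erase a, vzD q M a b) * ∏ b ∈ B, vzD q M a b := by
    intro a ha
    have hd : Disjoint (A.erase a) B := hAB.mono_left (Finset.erase_subset _ _)
    rw [← Finset.prod_union hd, ← hU, Finset.erase_union_distrib,
      Finset.erase_eq_of_notMem (Finset.disjoint_left.mp hAB ha)]
  have h2 : ∏ a ∈ A, E q 1 1 ^ 2 = ∏ a ∈ A,
      ((E q (2 * a - 1) (2 * M) * E q (2 * M - (2 * a - 1)) (2 * M)) *
      E q (2 * M) (2 * M) ^ 2 * ((∏ b ∈ A.erase a, vzD q M a b) * ∏ b ∈ B, vzD q M a b)) := by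
    refine Finset.prod_congr rfl fun a ha => ?_
    rw [keyD hq0 hq1 (hmem a ha), h1 a ha]
  simp only [Finset.prod_mul_distrib, Finset.prod_const] at h2
  rw [h0, double_sq _ (vzD_comm q M), ← pow_mul, mul_comm A.card 2, pow_mul, h2, ← pow_mul,
    ← pow_mul, mul_comm A.card 2]
  simp only [Finset.prod_mul_distrib]
  ring

theorem constsD {q : ℝ} (hq0 : 0 < q) (hq1 : q < 1) {M : ℕ} (hM : 0 < M) :
    E q 1 1 ^ 2 = E q 2 2 ^ 2 *
      ∏ a ∈ Icc 1 M, E q (2 * a - 1) (2 * M) * E q (2 * M - (2 * a - 1)) (2 * M) := by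
  have hIcc : Icc 1 M = Ico 1 (M + 1) := by
    ext x
    simp only [Finset.mem_Icc, Finset.mem_Ico]
    omega
  have h1 : E q 1 2 = ∏ a ∈ Icc 1 M, E q (2 * a - 1) (2 * M) := by
    rw [E_split hq0 hq1 one_pos two_pos hM, hIcc, Finset.prod_Ico_eq_prod_range]
    refine Finset.prod_congr (by simp) fun a _ => ?_
    congr 1
    omega
  have h2 : ∏ a ∈ Icc 1 M, E q (2 * M - (2 * a - 1)) (2 * M) = E q 1 2 := by
    rw [h1, hIcc]
    have h := Finset.prod_Ico_reflect (fun k : ℕ => E q (2 * k - 1) (2 * M)) 1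
      (by omega : M + 1 ≤ M + 1 + 1)
    rw [show M + 1 + 1 - (M + 1) = 1 by omega, show M + 1 + 1 - 1 = M + 1 by omega] at h
    rw [← h]
    refine Finset.prod_congr rfl fun a ha => ?_
    have := Finset.mem_Ico.mp ha
    congr 1
    omega
  have h3 : E q 1 1 = E q 1 2 * E q 2 2 := E_two hq0 hq1 one_pos one_pos
  rw [Finset.prod_mul_distrib, h2, ← h1, h3]
  ring

end T4Daux

open T4Daux in
theorem T4D (q : ℝ) (hq0 : 0 < q) (hq1 : q < 1) (M : ℕ) (hM : 0 < M) (A B : Finset ℕ)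
    (hAB : Disjoint A B) (hU : A ∪ B = Finset.Icc 1 M) :
    E q (2 * M) (2 * M) ^ A.card * E q 1 1 / (E q 2 2 * E q 1 1 ^ A.card) *
        (∏ a ∈ A, ∏ b ∈ A.filter (fun b => a < b), vtD q M a b) =
      E q (2 * M) (2 * M) ^ B.card / E q 1 1 ^ B.card *
        (∏ b ∈ B, E q (2 * b - 1) (2 * M) * E q (2 * M - (2 * b - 1)) (2 * M)) *
        (∏ a ∈ B, ∏ b ∈ B.filter (fun b => a < b), vtD q M a b) := by
  have hmemA : ∀ a ∈ A, 1 ≤ a ∧ a ≤ M := fun a ha =>
    Finset.mem_Icc.mp (hU ▸ Finset.mem_union_left _ ha)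
  have hmemB : ∀ a ∈ B, 1 ≤ a ∧ a ≤ M := fun a ha =>
    Finset.mem_Icc.mp (hU ▸ Finset.mem_union_right _ ha)
  have hA := sideD hq0 hq1 M A B hAB hU
  have hB := sideD hq0 hq1 M B A hAB.symm (by rw [Finset.union_comm]; exact hU)
  have hC : ∏ a ∈ B, ∏ b ∈ A, vzD q M a b = ∏ a ∈ A, ∏ b ∈ B, vzD q M a b := by
    rw [Finset.prod_comm]
    exact Finset.prod_congr rfl fun a _ => Finset.prod_congr rfl fun b _ => vzD_comm q M b a
  rw [hC] at hB
  have hK := constsD hq0 hq1 hM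
  rw [← hU, Finset.prod_union hAB] at hK
  have hZ : 0 < E q 2 2 := E_pos hq0 hq1 two_pos two_pos
  have hX : 0 < E q 1 1 := E_pos hq0 hq1 one_pos one_pos
  have hY : 0 < E q (2 * M) (2 * M) := E_pos hq0 hq1 (by omega) (by omega)
  have hCpos : 0 < ∏ a ∈ A, ∏ b ∈ B, vzD q M a b :=
    Finset.prod_pos fun a _ => Finset.prod_pos fun b _ => vzD_pos hq0 hq1 hM a b
  have hvt : ∀ S : Finset ℕ, (∀ a ∈ S, 1 ≤ a ∧ a ≤ M) →
      0 < ∏ a ∈ S, ∏ b ∈ S.filter (fun b => a < b), vtD q M a b := by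
    intro S hS
    refine Finset.prod_pos fun a ha => Finset.prod_pos fun b hb => ?_
    have h1 := hS a ha
    have h2 := Finset.mem_filter.mp hb
    have h3 := hS b h2.1
    rw [vtD_eq_vz q M a b (by omega) h2.2 (by omega)]
    exact vzD_pos hq0 hq1 hM a b
  have hT : ∀ S : Finset ℕ, (∀ a ∈ S, 1 ≤ a ∧ a ≤ M) →
      0 < ∏ a ∈ S, E q (2 * a - 1) (2 * M) * E q (2 * M - (2 * a - 1)) (2 * M) := by
    intro S hS
    refine Finset.prod_pos fun a ha => ?_
    have h1 := hS a ha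
    exact mul_pos (E_pos hq0 hq1 (by omega) (by omega)) (E_pos hq0 hq1 (by omega) (by omega))
  have hDA := hvt A hmemA
  have hDB := hvt B hmemB
  have hTA := hT A hmemA
  have hTB := hT B hmemB
  have hXA : 0 < E q 1 1 ^ A.card := pow_pos hX _
  have hXB : 0 < E q 1 1 ^ B.card := pow_pos hX _
  have hYA : 0 < E q (2 * M) (2 * M) ^ A.card := pow_pos hY _
  have hYB : 0 < E q (2 * M) (2 * M) ^ B.card := pow_pos hY _
  generalize (∏ a ∈ A, ∏ b ∈ A.filter (fun b => a < b), vtD q M a b) = DA at *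
  generalize (∏ a ∈ B, ∏ b ∈ B.filter (fun b => a < b), vtD q M a b) = DB at *
  generalize (∏ a ∈ A, E q (2 * a - 1) (2 * M) * E q (2 * M - (2 * a - 1)) (2 * M)) = TA at *
  generalize (∏ a ∈ B, E q (2 * a - 1) (2 * M) * E q (2 * M - (2 * a - 1)) (2 * M)) = TB at *
  generalize (∏ a ∈ A, ∏ b ∈ B, vzD q M a b) = C at *
  generalize E q 1 1 ^ A.card = XA at *
  generalize E q 1 1 ^ B.card = XB at *
  generalize E q (2 * M) (2 * M) ^ A.card = YA at *
  generalize E q (2 * M) (2 * M) ^ B.card = YB at *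
  generalize E q 1 1 = X at *
  generalize E q 2 2 = Z at *
  have hsq : (YA * X / (Z * XA) * DA) ^ 2 = (YB / XB * TB * DB) ^ 2 := by
    have e1 : (YA * X / (Z * XA) * DA) ^ 2 = YA ^ 2 * X ^ 2 * DA ^ 2 / (Z ^ 2 * XA ^ 2) := by
      field_simp
    have e2 : (YB / XB * TB * DB) ^ 2 = YB ^ 2 * TB ^ 2 * DB ^ 2 / XB ^ 2 := by
      field_simp
    rw [e1, e2, hA, hB, hK, div_eq_div_iff (by positivity) (by positivity)]
    ring
  have hL : 0 ≤ YA * X / (Z * XA) * DA := by positivity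
  have hR : 0 ≤ YB / XB * TB * DB := by positivity
  exact (pow_left_inj₀ hL hR two_ne_zero).mp hsq

end Pool.Agent.H680_DP
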