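import Pool.Agent.H680_DP.T1c
import Pool.Agent.H680_DP.T_LIMD
import Pool.Agent.H680_DP.T_T4D
import Pool.Agent.H680_DP.T_CX
import Pool.Agent.H680_DP.T_DD
import Pool.Agent.H680_CP.Asm3

set_option autoImplicit false

namespace Pool.Agent.H680_DP

open Finset Filter Topology Pool.Agent.H680_CP

theorem bposD_eq (n : ℕ) (k : ℕ → ℕ) (t : ℕ) : bposD n k t = bpos (n + 1) k t := rfl

theorem bposD_strictMono (n : ℕ) (k : ℕ → ℕ) (K : ℕ) :
    StrictMono (fun t : Fin K => bposD n k t) := bpos_strictMono (n + 1) k K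

theorem bposD_pos (n : ℕ) (k : ℕ → ℕ) (t : ℕ) : 0 < bposD n k t := bpos_pos (n + 1) k t

theorem bposD_le (n : ℕ) (k : ℕ → ℕ) (K t : ℕ) (ht : t < K) : bposD n k t ≤ n + K + 1 := by
  have := bpos_lt (n + 1) k K t ht
  rw [bposD_eq]
  omega

/-- The determinant form of the generating function. -/
theorem hasSum_detD (n : ℕ) (k : ℕ → ℕ) (q : ℝ) (hq0 : 0 < q) (hq1 : q < 1) :
    HasSum (fun N => ((SSD (n + 1) k N).ncard : ℝ) * q ^ N)
      (q ^ (∑ t : Fin (∑ t ∈ range (n + 2), k t), ((t : ℕ) + 1) * bposD n k t) *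
        ((∏ t : Fin (∑ t ∈ range (n + 2), k t), (E q 1 1)⁻¹ *
            (Real.sqrt q) ^ (-(((t : ℕ) : ℤ) + 1))) *
          Rdet (∑ t ∈ range (n + 2), k t) (q ^ (2 * (n + (∑ t ∈ range (n + 2), k t) + 1)))
            (fun i => Real.sqrt q ^ (2 * bposD n k i - 1)))) := by
  classical
  set K := ∑ t ∈ range (n + 2), k t with hK
  refine genfun_limit (H := fun _ => ℕ → Fin K → Bool)
    (fun l => FamD n (fun t : Fin K => bposD n k t) (2 * l))
    (fun l h => wtD n (fun t : Fin K => bposD n k t) (2 * l) h)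
    (fun N => (SSD (n + 1) k N).ncard) q _ hq0 hq1 ?_ ?_ ?_
  · intro l N
    exact DD_le n k l N
  · intro N
    exact DD_eq n k N
  · have h1 : ∀ l, ∑ h ∈ FamD n (fun t : Fin K => bposD n k t) (2 * l),
        q ^ (wtD n (fun t : Fin K => bposD n k t) (2 * l) h) =
        q ^ (∑ t : Fin K, ((t : ℕ) + 1) * bposD n k t) *
        Matrix.det (Matrix.of fun t i : Fin K =>
          RwD q (K + 1) (n + K + 1) (bposD n k i) (((t : ℕ) : ℤ) + 1) (2 * l)
            ((l : ℤ) + (n + (t : ℕ) + 2))) := fun l =>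
      T1D q hq0 n K (fun t : Fin K => bposD n k t) (bposD_strictMono n k K)
        (fun t => bposD_pos n k t) (fun t => bposD_le n k K t t.2) l
    simp only [h1]
    refine Tendsto.const_mul _ ?_
    have h2 : (∏ t : Fin K, (E q 1 1)⁻¹ * (Real.sqrt q) ^ (-(((t : ℕ) : ℤ) + 1))) *
        Rdet K (q ^ (2 * (n + K + 1))) (fun i => Real.sqrt q ^ (2 * bposD n k i - 1)) =
        Matrix.det (Matrix.of fun t i : Fin K => (E q 1 1)⁻¹ *
          (Real.sqrt q ^ (-(((t : ℕ) : ℤ) + 1)) *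
          phi (K + 1) (q ^ (2 * (n + K + 1))) (((t : ℕ) : ℤ) + 1)
            (Real.sqrt q ^ (2 * bposD n k i - 1)))) := by
      have h3 := Matrix.det_mul_column
        (fun t : Fin K => (E q 1 1)⁻¹ * (Real.sqrt q) ^ (-(((t : ℕ) : ℤ) + 1)))
        (Matrix.of fun t i : Fin K =>
          phi (K + 1) (q ^ (2 * (n + K + 1))) (((t : ℕ) : ℤ) + 1)
            (Real.sqrt q ^ (2 * bposD n k i - 1)))
      rw [Rdet, ← h3]
      congr 1
      ext t i
      simp only [Matrix.of_apply]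
      ring
    rw [h2]
    refine ((continuous_id.matrix_det).tendsto _).comp ?_
    refine (tendsto_pi_nhds (f := fun (l : ℕ) (t : Fin K) (i : Fin K) =>
      RwD q (K + 1) (n + K + 1) (bposD n k i) (((t : ℕ) : ℤ) + 1) (2 * l)
            ((l : ℤ) + (n + (t : ℕ) + 2)))).2 fun t => tendsto_pi_nhds.2 fun i => ?_
    exact RwD_tendsto q hq0 hq1 (K + 1) (n + K + 1) (bposD n k i) (by omega) (bposD_pos n k i)
      (bposD_le n k K i i.2) (((t : ℕ) : ℤ) + 1) (n + (t : ℕ) + 2)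

end Pool.Agent.H680_DP
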