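import Pool.Agent.H680_DP.AsmD1

set_option autoImplicit false

namespace Pool.Agent.H680_DP

open Finset Filter Topology Pool.Agent.H680_CP

/-- The product side at odd powers of `√q`. -/
theorem PprodD_pow (q : ℝ) (hq0 : 0 < q) (k M : ℕ) (b : Fin k → ℕ) (hb : StrictMono b)
    (hb0 : ∀ t, 0 < b t) (hbM : ∀ t, b t ≤ M) :
    q ^ (∑ t : Fin k, ((t : ℕ) + 1) * b t) * ((∏ t : Fin k, (Real.sqrt q) ^ (-(((t : ℕ) : ℤ) + 1))) *
        Pprod k (q ^ (2 * M)) (fun i => Real.sqrt q ^ (2 * b i - 1))) =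
      (∏ i, E q (2 * b i - 1) (2 * M) * E q (2 * M - (2 * b i - 1)) (2 * M)) *
        ∏ i, ∏ j ∈ Finset.Ioi i, vtD q M (b i) (b j) := by
  have hs0 : 0 < Real.sqrt q := Real.sqrt_pos.2 hq0
  set r := Real.sqrt q with hr
  have hrq : r ^ 2 = q := Real.sq_sqrt hq0.le
  have h1 : Pprod k (q ^ (2 * M)) (fun i => r ^ (2 * b i - 1)) =
      ((∏ i, (r ^ (2 * b i - 1))⁻¹) * ∏ i, ∏ j ∈ Finset.Ioi i, (r ^ (2 * b j - 1))⁻¹) *
      ((∏ i, E q (2 * b i - 1) (2 * M) * E q (2 * M - (2 * b i - 1)) (2 * M)) *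
        ∏ i, ∏ j ∈ Finset.Ioi i, vtD q M (b i) (b j)) := by
    have h2 : ∀ i, (r ^ (2 * b i - 1))⁻¹ * th (q ^ (2 * M)) ((r ^ (2 * b i - 1)) ^ 2) =
        (r ^ (2 * b i - 1))⁻¹ *
          (E q (2 * b i - 1) (2 * M) * E q (2 * M - (2 * b i - 1)) (2 * M)) := by
      intro i
      have e0 : (r ^ (2 * b i - 1)) ^ 2 = q ^ (2 * b i - 1) := by
        rw [← hrq, ← pow_mul, ← pow_mul, mul_comm]
      rw [e0, th_pow q hq0 _ _ (by have := hbM i; omega)]
    have h3 : ∀ i : Fin k, ∀ j ∈ Finset.Ioi i, (r ^ (2 * b j - 1))⁻¹ *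
        th (q ^ (2 * M)) (r ^ (2 * b j - 1) / r ^ (2 * b i - 1)) *
          th (q ^ (2 * M)) (r ^ (2 * b i - 1) * r ^ (2 * b j - 1)) =
        (r ^ (2 * b j - 1))⁻¹ * vtD q M (b i) (b j) := by
      intro i j hij
      have hlt : b i < b j := hb (Finset.mem_Ioi.1 hij)
      have hi0 := hb0 i
      have hj0 := hb0 j
      have hiM := hbM i
      have hjM := hbM j
      have e1 : r ^ (2 * b j - 1) / r ^ (2 * b i - 1) = q ^ (b j - b i) := by
        rw [div_eq_iff (pow_ne_zero _ hs0.ne'), ← hrq, ← pow_mul, ← pow_add]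
        congr 1; omega
      have e2 : r ^ (2 * b i - 1) * r ^ (2 * b j - 1) = q ^ (b i + b j - 1) := by
        rw [← hrq, ← pow_mul, ← pow_add]
        congr 1; omega
      rw [e1, e2, th_pow q hq0 _ _ (by omega), th_pow q hq0 _ _ (by omega), vtD]
      ring
    unfold Pprod
    simp only []
    rw [Finset.prod_congr rfl fun i _ => h2 i,
      Finset.prod_congr rfl fun i _ => Finset.prod_congr rfl (h3 i)]
    simp only [Finset.prod_mul_distrib]
    ring
  have h4 : q ^ (∑ t : Fin k, ((t : ℕ) + 1) * b t) * (∏ t : Fin k, r ^ (-(((t : ℕ) : ℤ) + 1))) =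
      r ^ (∑ t : Fin k, ((t : ℕ) + 1) * (2 * b t - 1)) := by
    rw [← Finset.prod_pow_eq_pow_sum, ← Finset.prod_pow_eq_pow_sum, ← Finset.prod_mul_distrib]
    refine Finset.prod_congr rfl fun t _ => ?_
    rw [← hrq, ← pow_mul, ← zpow_natCast, ← zpow_natCast, ← zpow_add₀ hs0.ne']
    congr 1
    have := hb0 t
    have e : ((2 * b t - 1 : ℕ) : ℤ) = 2 * b t - 1 := by omega
    push_cast [e]
    ring
  rw [← mul_assoc, h4, h1, ← mul_assoc, prod_inv_pairs r hs0 (fun t => 2 * b t - 1), one_mul]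

theorem ABD_union (n K : ℕ) (k : ℕ → ℕ) (hK : K = ∑ t ∈ range (n + 2), k t) :
    ((Finset.Icc 1 (n + 1)).image (alph k)) ∪
      ((Finset.univ : Finset (Fin K)).image (fun t : Fin K => bposD n k t)) =
        Finset.Icc 1 (n + K + 1) := by
  have h := AB_union (n + 1) K k hK
  have h2 : (fun t : Fin K => bposD n k t) = (fun t : Fin K => bpos (n + 1) k t) := by
    funext t; rfl
  rw [h2, h]
  ext x
  simp only [Finset.mem_Ico, Finset.mem_Icc]
  omega

theorem ABD_disjoint (n K : ℕ) (k : ℕ → ℕ) :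
    Disjoint ((Finset.Icc 1 (n + 1)).image (alph k))
      ((Finset.univ : Finset (Fin K)).image (fun t : Fin K => bposD n k t)) :=
  AB_disjoint (n + 1) K k

/-- T4D in terms of `Pprod`. -/
theorem T4D' (q : ℝ) (hq0 : 0 < q) (hq1 : q < 1) (n : ℕ) (k : ℕ → ℕ) (K : ℕ)
    (hK : K = ∑ t ∈ range (n + 2), k t) :
    E q (2 * (n + K + 1)) (2 * (n + K + 1)) ^ (n + 1) * E q 1 1 /
          (E q 2 2 * E q 1 1 ^ (n + 1)) *
        (∏ i ∈ Finset.Icc 1 (n + 1), ∏ l ∈ Finset.Icc (i + 1) (n + 1),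
          vtD q (n + K + 1) (alph k i) (alph k l)) =
      q ^ (∑ t : Fin K, ((t : ℕ) + 1) * bposD n k t) *
        ((∏ t : Fin K, (E q 1 1)⁻¹ * (Real.sqrt q) ^ (-(((t : ℕ) : ℤ) + 1))) *
          (E q (2 * (n + K + 1)) (2 * (n + K + 1)) ^ K *
          Pprod K (q ^ (2 * (n + K + 1))) (fun i => Real.sqrt q ^ (2 * bposD n k i - 1)))) := by
  have h := T4D q hq0 hq1 (n + K + 1) (by omega) _ _ (ABD_disjoint n K k) (ABD_union n K k hK)
  rw [prod_pairs_image _ (bposD_strictMono n k K),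
    Finset.prod_image (fun i _ j _ h => (bposD_strictMono n k K).injective h),
    Finset.card_image_of_injective _ (alph_strictMono k).injective,
    Finset.card_image_of_injective _ (bposD_strictMono n k K).injective,
    Finset.prod_image (fun i _ j _ h => (alph_strictMono k).injective h)] at h
  have h1 : (∏ i ∈ Finset.Icc 1 (n + 1), ∏ y ∈ ((Finset.Icc 1 (n + 1)).image (alph k)).filter
        (fun b => alph k i < b), vtD q (n + K + 1) (alph k i) y) =
      (∏ i ∈ Finset.Icc 1 (n + 1), ∏ l ∈ Finset.Icc (i + 1) (n + 1),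
          vtD q (n + K + 1) (alph k i) (alph k l)) := by
    refine Finset.prod_congr rfl fun i hi => ?_
    rw [Finset.mem_Icc] at hi
    have : ((Finset.Icc 1 (n + 1)).image (alph k)).filter (fun b => alph k i < b) =
        (Finset.Icc (i + 1) (n + 1)).image (alph k) := by
      ext y
      simp only [Finset.mem_filter, Finset.mem_image, Finset.mem_Icc]
      constructor
      · rintro ⟨⟨j, hj, rfl⟩, h⟩
        have := (alph_strictMono k).lt_iff_lt.1 h
        exact ⟨j, ⟨by omega, hj.2⟩, rfl⟩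
      · rintro ⟨j, hj, rfl⟩
        exact ⟨⟨j, ⟨by omega, hj.2⟩, rfl⟩, (alph_strictMono k) (by omega)⟩
    rw [this, Finset.prod_image (fun i _ j _ h => (alph_strictMono k).injective h)]
  rw [h1] at h
  simp only [Nat.card_Icc, Finset.card_univ, Fintype.card_fin, Nat.add_sub_cancel] at h
  rw [h]
  have h2 := PprodD_pow q hq0 K (n + K + 1) (fun i => bposD n k i) (bposD_strictMono n k K)
    (fun t => bposD_pos n k t) (fun t => bposD_le n k K t t.2)
  have h5 : (∏ t : Fin K, (E q 1 1)⁻¹ * (Real.sqrt q) ^ (-(((t : ℕ) : ℤ) + 1))) =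
      (E q 1 1 ^ K)⁻¹ * ∏ t : Fin K, (Real.sqrt q) ^ (-(((t : ℕ) : ℤ) + 1)) := by
    rw [Finset.prod_mul_distrib, Finset.prod_const, Finset.card_univ, Fintype.card_fin, inv_pow]
  rw [h5]
  have h3 : q ^ (∑ t : Fin K, ((t : ℕ) + 1) * bposD n k t) *
        (((E q 1 1 ^ K)⁻¹ * ∏ t : Fin K, (Real.sqrt q) ^ (-(((t : ℕ) : ℤ) + 1))) *
          (E q (2 * (n + K + 1)) (2 * (n + K + 1)) ^ K *
          Pprod K (q ^ (2 * (n + K + 1))) (fun i => Real.sqrt q ^ (2 * bposD n k i - 1)))) =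
      E q (2 * (n + K + 1)) (2 * (n + K + 1)) ^ K / E q 1 1 ^ K *
      (q ^ (∑ t : Fin K, ((t : ℕ) + 1) * bposD n k t) *
        ((∏ t : Fin K, (Real.sqrt q) ^ (-(((t : ℕ) : ℤ) + 1))) *
        Pprod K (q ^ (2 * (n + K + 1))) (fun i => Real.sqrt q ^ (2 * bposD n k i - 1)))) := by
    ring
  rw [h3, h2]
  ring

/-- The product formula for real `q`, in terms of `alph`. -/
theorem hasSum_alphD (n : ℕ) (k : ℕ → ℕ) (q : ℝ) (hq0 : 0 < q) (hq1 : q < 1) (K : ℕ)
    (hK : K = ∑ t ∈ range (n + 2), k t) :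
    HasSum (fun N => ((SSD (n + 1) k N).ncard : ℝ) * q ^ N)
      (E q (2 * (n + K + 1)) (2 * (n + K + 1)) ^ (n + 1) * E q 1 1 /
          (E q 2 2 * E q 1 1 ^ (n + 1)) *
        (∏ i ∈ Finset.Icc 1 (n + 1), ∏ l ∈ Finset.Icc (i + 1) (n + 1),
          vtD q (n + K + 1) (alph k i) (alph k l))) := by
  have h := hasSum_detD n k q hq0 hq1
  rw [← hK] at h
  rw [T4D' q hq0 hq1 n k K hK, E_pow q (2 * (n + K + 1))]
  rwa [Rdet_eq K _ (pow_pos hq0 _) (pow_lt_one₀ hq0.le hq1 (by omega)) _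
    (fun i => pow_pos (Real.sqrt_pos.2 hq0) _)] at h

end Pool.Agent.H680_DP
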