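import Pool.Agent.H680_DP.AsmD2

set_option autoImplicit false

namespace Pool.Agent.H680_DP

open Finset Filter Topology Pool.Agent.H680_CP

/-- complex version of `vtD` -/
noncomputable def vtC (q : ℂ) (M a b : ℕ) : ℂ :=
  EC q (b - a) (2 * M) * EC q (2 * M - (b - a)) (2 * M) *
    (EC q (a + b - 1) (2 * M) * EC q (2 * M - (a + b - 1)) (2 * M))

/-- complex version of the product side -/
noncomputable def RC (n K : ℕ) (k : ℕ → ℕ) (q : ℂ) : ℂ :=
  EC q (2 * (n + K + 1)) (2 * (n + K + 1)) ^ (n + 1) / (EC q 2 2 * EC q 1 1 ^ n) *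
        (∏ i ∈ Finset.Icc 1 (n + 1), ∏ l ∈ Finset.Icc (i + 1) (n + 1),
          vtC q (n + K + 1) (alph k i) (alph k l))

theorem vtC_ofReal (q : ℝ) (hq0 : 0 < q) (hq1 : q < 1) (M a b : ℕ) (hM : 0 < M) :
    vtC (q : ℂ) M a b = ((vtD q M a b : ℝ) : ℂ) := by
  unfold vtC vtD
  rw [EC_ofReal q hq0 hq1 _ _ (by omega), EC_ofReal q hq0 hq1 _ _ (by omega),
    EC_ofReal q hq0 hq1 _ _ (by omega), EC_ofReal q hq0 hq1 _ _ (by omega)]
  push_cast
  rfl

theorem RC_differentiableOn (n K : ℕ) (k : ℕ → ℕ) :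
    DifferentiableOn ℂ (RC n K k) (Metric.ball 0 1) := by
  have hE : ∀ a m : ℕ, 0 < m → DifferentiableOn ℂ (fun q : ℂ => EC q a m) (Metric.ball 0 1) :=
    EC_differentiableOn
  unfold RC
  refine DifferentiableOn.mul (DifferentiableOn.div ((hE _ _ (by omega)).pow _)
    ((hE _ _ (by omega)).mul ((hE _ _ (by omega)).pow _)) ?_) ?_
  · intro q hq
    have hq' : ‖q‖ < 1 := by simpa using hq
    exact mul_ne_zero (EC_ne_zero q hq' _ _ (by omega) (by omega))
      (pow_ne_zero _ (EC_ne_zero q hq' _ _ (by omega) (by omega)))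
  · refine DifferentiableOn.fun_finsetProd fun i _ => DifferentiableOn.fun_finsetProd fun l _ => ?_
    unfold vtC
    exact ((hE _ _ (by omega)).mul (hE _ _ (by omega))).mul
      ((hE _ _ (by omega)).mul (hE _ _ (by omega)))

/-- The product formula for complex `q`. -/
theorem hasSum_RC (n : ℕ) (k : ℕ → ℕ) (q : ℂ) (hq : ‖q‖ < 1) (K : ℕ)
    (hK : K = ∑ t ∈ range (n + 2), k t) :
    HasSum (fun N => (((SSD (n + 1) k N).ncard : ℕ) : ℂ) * q ^ N) (RC n K k q) := by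
  refine hasSum_complex (fun N => (SSD (n + 1) k N).ncard) (RC n K k)
    (RC_differentiableOn n K k) ?_ q hq
  intro x hx0 hx1
  have h := hasSum_alphD n k x hx0 hx1 K hK
  have h2 := h.mapL Complex.ofRealCLM
  have hE1 : E x 1 1 ≠ 0 := (E_pos x hx0 hx1 1 1 one_pos one_pos).ne'
  have h3 : RC n K k (x : ℂ) = Complex.ofRealCLM
      (E x (2 * (n + K + 1)) (2 * (n + K + 1)) ^ (n + 1) * E x 1 1 /
          (E x 2 2 * E x 1 1 ^ (n + 1)) *
        (∏ i ∈ Finset.Icc 1 (n + 1), ∏ l ∈ Finset.Icc (i + 1) (n + 1),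
          vtD x (n + K + 1) (alph k i) (alph k l))) := by
    have h4 : E x (2 * (n + K + 1)) (2 * (n + K + 1)) ^ (n + 1) * E x 1 1 /
          (E x 2 2 * E x 1 1 ^ (n + 1)) =
          E x (2 * (n + K + 1)) (2 * (n + K + 1)) ^ (n + 1) / (E x 2 2 * E x 1 1 ^ n) := by
      rw [pow_succ (E x 1 1) n, ← mul_assoc, mul_div_mul_right _ _ hE1]
    rw [h4, Complex.ofRealCLM_apply]
    unfold RC
    rw [EC_ofReal x hx0 hx1 _ _ (by omega), EC_ofReal x hx0 hx1 _ _ (by omega),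
      EC_ofReal x hx0 hx1 _ _ (by omega)]
    rw [Finset.prod_congr rfl fun i _ => Finset.prod_congr rfl fun l _ =>
      vtC_ofReal x hx0 hx1 (n + K + 1) (alph k i) (alph k l) (by omega)]
    push_cast
    rfl
  rw [h3]
  refine h2.congr_fun ?_
  intro N
  simp

end Pool.Agent.H680_DP
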