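import Pool.Agent.H680_DP.Defs
import Pool.Agent.H680_CP.T_D

set_option autoImplicit false

namespace Pool.Agent.H680_DP

open Finset Pool.Agent.H680_CP

/-! ### Heights of a family and its array -/

/-- unshifted height -/
def yD {k : ℕ} (b : Fin k → ℕ) (h : ℕ → Fin k → Bool) (x : ℕ) (t : Fin k) : ℤ :=
  2 * pos b h x t - x - 1 - 2 * (t : ℕ)

theorem yD_zero {k : ℕ} (b : Fin k → ℕ) (h : ℕ → Fin k → Bool) (t : Fin k) :
    yD b h 0 t = 2 * b t - 1 - 2 * (t : ℕ) := by
  simp [yD, pos]

theorem yD_succ {k : ℕ} (b : Fin k → ℕ) (h : ℕ → Fin k → Bool) (x : ℕ) (t : Fin k) :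
    yD b h (x + 1) t = yD b h x t + if h x t = true then 1 else -1 := by
  simp only [yD, pos, Finset.sum_range_succ]
  split_ifs <;> push_cast <;> ring

theorem yD_parity {k : ℕ} (b : Fin k → ℕ) (h : ℕ → Fin k → Bool) (x : ℕ) (t : Fin k) :
    Odd (yD b h x t + x) := by
  refine ⟨pos b h x t - (t : ℕ) - 1, ?_⟩
  simp only [yD]; ring

/-- the array of a family -/
noncomputable def arrD (n : ℕ) {k : ℕ} (b : Fin k → ℕ) (h : ℕ → Fin k → Bool) (x c : ℕ) : ℕ := by
  classical
  exact (Finset.univ.filter fun t : Fin k => ValleyD n b h x t ∧ yD b h x t = c).card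

theorem validD_mono {n k : ℕ} {b : Fin k → ℕ} {h : ℕ → Fin k → Bool} {x : ℕ}
    (hv : ValidD n x (pos b h x)) : Monotone (yD b h x) := by
  intro t t' htt'
  -- strictly monotone integer sequence: a (t') - a t ≥ t' - t
  have key : ∀ d : ℕ, ∀ (s : ℕ) (hs : s + d < k),
      pos b h x ⟨s, by omega⟩ + d ≤ pos b h x ⟨s + d, hs⟩ := by
    intro d
    induction d with
    | zero => intro s hs; simp
    | succ d ih =>
      intro s hs
      have h1 := ih s (by omega)
      have h2 : pos b h x ⟨s + d, by omega⟩ < pos b h x ⟨s + (d + 1), hs⟩ := hv.1 (by simp)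
      push_cast
      linarith
  have h1 : (t : ℕ) ≤ t' := htt'
  have h2 := key ((t' : ℕ) - t) t (by have := t'.2; omega)
  have e1 : (⟨(t : ℕ) + ((t' : ℕ) - t), by have := t'.2; omega⟩ : Fin k) = t' := by
    ext; simp; omega
  rw [e1] at h2
  simp only [Fin.eta] at h2
  simp only [yD]
  push_cast [Nat.cast_sub h1] at h2
  linarith

theorem validD_ge {n k : ℕ} {b : Fin k → ℕ} {h : ℕ → Fin k → Bool} {x : ℕ}
    (hv : ValidD n x (pos b h x)) (t : Fin k) : 1 ≤ yD b h x t := by
  have hk : 0 < k := t.pos
  have h1 := validD_mono hv (show (⟨0, hk⟩ : Fin k) ≤ t from Nat.zero_le _)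
  have h2 := hv.2.1 ⟨0, hk⟩
  have h3 : yD b h x ⟨0, hk⟩ = 2 * pos b h x ⟨0, hk⟩ - x - 1 - 2 * (0 : ℕ) := rfl
  push_cast at h3
  linarith

theorem validD_le {n k : ℕ} {b : Fin k → ℕ} {h : ℕ → Fin k → Bool} {x : ℕ}
    (hv : ValidD n x (pos b h x)) (t : Fin k) : yD b h x t ≤ 2 * n + 3 := by
  have h1 := hv.2.2 t
  simp only [yD]
  linarith

/-- the incidence of the path `p` and the lattice path `t` in row `c` -/
def inc (n : ℕ) {k : ℕ} (b : Fin k → ℕ) (h : ℕ → Fin k → Bool) (p : ℕ → ℤ) (t : Fin k)
    (c : ℕ) : Prop :=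
  if 1 ≤ p c then ValleyD n b h (p c).toNat t ∧ yD b h (p c).toNat t = c
  else if p c = 0 then (c = 1 ∧ yD b h 0 t = 1) ∨ (c = 2 * n + 1 ∧ yD b h 0 t = 2 * n + 3)
  else yD b h 0 t = c + 1

theorem yD_lower {k : ℕ} (b : Fin k → ℕ) (h : ℕ → Fin k → Bool) (t : Fin k) (x : ℕ) :
    yD b h 0 t - x ≤ yD b h x t := by
  induction x with
  | zero => simp
  | succ x ih =>
    rw [yD_succ]
    push_cast
    split_ifs <;> linarith

theorem p_upper (p : ℕ → ℤ) (m : ℕ) (hp2 : ∀ c, 1 ≤ c → c + 1 ≤ m → |p c - p (c + 1)| = 1)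
    (d c : ℕ) (hc : 1 ≤ c) (hcm : c + d ≤ m) : p c ≤ p (c + d) + d := by
  induction d with
  | zero => simp
  | succ d ih =>
    have h1 := ih (by omega)
    have h2 := hp2 (c + d) (by omega) (by omega)
    have h3 := (abs_le.1 h2.le).2
    push_cast
    have e : c + (d + 1) = c + d + 1 := by ring
    rw [e]
    linarith

/-- The path `p` meets at most one valley of each lattice path. -/
theorem pathD_le {k : ℕ} (n : ℕ) (b : Fin k → ℕ) (h : ℕ → Fin k → Bool) (t : Fin k)
    (p : ℕ → ℤ)
    (hp1 : ∀ c ∈ Finset.Icc 1 (2 * n + 1), -1 ≤ p c)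
    (hp2 : ∀ c, 1 ≤ c → c + 1 ≤ 2 * n + 1 → |p c - p (c + 1)| = 1) (c c' : ℕ) (hc1 : 1 ≤ c)
    (hcc' : c < c') (hc'm : c' ≤ 2 * n + 1)
    (hv : inc n b h p t c) (hv' : inc n b h p t c') : False := by
  have hpc := hp1 c (by rw [mem_Icc]; omega)
  have hpc' := hp1 c' (by rw [mem_Icc]; omega)
  -- the case of a path which starts at the top
  by_cases htop : p c' = 0
  · have h0 : c' = 2 * n + 1 ∧ yD b h 0 t = 2 * n + 3 := by
      unfold inc at hv'
      rw [if_neg (by omega), if_pos htop] at hv'
      rcases hv' with h1 | h1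
      · omega
      · exact h1
    obtain ⟨h1, h2⟩ := h0
    unfold inc at hv
    split_ifs at hv with h3 h4
    · have h5 := p_upper p (2 * n + 1) hp2 (c' - c) c hc1 (by omega)
      have e1 : c + (c' - c) = c' := by omega
      rw [e1, htop] at h5
      have h6 := yD_lower b h t (p c).toNat
      rw [hv.2, h2] at h6
      omega
    · omega
    · omega
  -- extended heights
  set Z : ℤ → ℤ := fun x => if x = -1 then yD b h 0 t - 1 else yD b h x.toNat t with hZ
  have hstep : ∀ x : ℤ, -1 ≤ x → |Z (x + 1) - Z x| = 1 := by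
    intro x hx
    simp only [hZ]
    rcases eq_or_lt_of_le hx with h1 | h1
    · subst h1; simp
    · have e1 : (x + 1).toNat = x.toNat + 1 := by omega
      rw [if_neg (by omega), if_neg (by omega), e1, yD_succ]
      split_ifs <;> simp
  -- the defect is monotone
  have hD : ∀ d, 1 ≤ d → d + 1 ≤ 2 * n + 1 →
      (d : ℤ) - Z (p d) ≤ ((d + 1 : ℕ) : ℤ) - Z (p (d + 1)) := by
    intro d hd1 hdm
    have h1 := hp2 d hd1 hdm
    have h2 := hp1 d (by rw [mem_Icc]; omega)
    have h3 := hp1 (d + 1) (by rw [mem_Icc]; omega)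
    rcases (abs_eq (by norm_num : (0 : ℤ) ≤ 1)).1 h1 with h4 | h4
    · have h5 : p d = p (d + 1) + 1 := by linarith
      have h6 := hstep (p (d + 1)) h3
      rw [h5]
      have h7 := (abs_le.1 h6.le).1
      push_cast; linarith
    · have h5 : p (d + 1) = p d + 1 := by linarith
      have h6 := hstep (p d) h2
      rw [h5]
      have h7 := (abs_le.1 h6.le).2
      push_cast; linarith
  have hD2 : ∀ e, ∀ d, 1 ≤ d → d + e ≤ 2 * n + 1 →
      (d : ℤ) - Z (p d) ≤ ((d + e : ℕ) : ℤ) - Z (p (d + e)) := by
    intro e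
    induction e with
    | zero => intro d _ _; simp
    | succ e ih =>
      intro d hd hdm
      exact (ih d hd (by omega)).trans (hD (d + e) (by omega) hdm)
  have hc0 : Z (p c) = c := by
    unfold inc at hv
    simp only [hZ]
    split_ifs at hv with h1 h2
    · rw [if_neg (by omega)]; exact hv.2
    · rw [if_neg (by omega), h2]
      rcases hv with h3 | h3
      · rw [h3.1]; exact h3.2
      · omega
    · rw [if_pos (by omega)]; linarith
  have hc0' : Z (p c') = c' := by
    unfold inc at hv'
    simp only [hZ]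
    split_ifs at hv' with h1
    · rw [if_neg (by omega)]; exact hv'.2
    · rw [if_pos (by omega)]; linarith
  -- the point just before c'
  obtain ⟨c'', rfl⟩ : ∃ c'', c' = c'' + 1 := ⟨c' - 1, by omega⟩
  have hA := hD2 (c'' - c) c hc1 (by omega)
  have e1 : c + (c'' - c) = c'' := by omega
  rw [e1] at hA
  have hB := hD c'' (by omega) hc'm
  have hZ'' : Z (p c'') = c'' := by
    rw [hc0] at hA
    rw [hc0'] at hB
    push_cast at hB
    linarith
  have h1 := hp2 c'' (by omega) hc'm
  have h2 := hp1 c'' (by rw [mem_Icc]; omega)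
  have h3 := hp1 (c'' + 1) (by rw [mem_Icc]; omega)
  unfold inc at hv'
  by_cases h4 : p (c'' + 1) = -1
  · rw [if_neg (by omega), if_neg (by omega)] at hv'
    have h5 : p c'' = 0 := by
      rw [h4] at h1
      rcases (abs_eq (by norm_num : (0 : ℤ) ≤ 1)).1 h1 with h6 | h6 <;> omega
    rw [h5] at hZ''
    simp only [hZ] at hZ''
    norm_num at hZ''
    push_cast at hv'
    linarith
  · rw [if_pos (by omega)] at hv'
    obtain ⟨⟨hva, hvb, hvc⟩, hvd⟩ := hv'
    obtain ⟨y, hy⟩ : ∃ y : ℕ, (p (c'' + 1)).toNat = y + 1 := ⟨(p (c'' + 1)).toNat - 1, by omega⟩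
    have hy' : p (c'' + 1) = y + 1 := by omega
    rw [hy] at hva hvb hvd
    have e2 : y + 1 - 1 = y := by omega
    rw [e2] at hva
    have s1 := yD_succ b h y t
    have s2 := yD_succ b h (y + 1) t
    rw [if_neg (by rw [hva]; simp)] at s1
    rw [if_pos hvb] at s2
    rcases (abs_eq (by norm_num : (0 : ℤ) ≤ 1)).1 h1 with h6 | h6
    · have h7 : p c'' = y + 2 := by linarith
      simp only [hZ, h7] at hZ''
      rw [if_neg (by omega)] at hZ''
      have e3 : ((y : ℤ) + 2).toNat = y + 1 + 1 := by omega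
      rw [e3] at hZ''
      push_cast at hvd
      linarith
    · have h7 : p c'' = y := by linarith
      simp only [hZ, h7] at hZ''
      rw [if_neg (by omega)] at hZ''
      have e3 : ((y : ℤ)).toNat = y := by omega
      rw [e3] at hZ''
      push_cast at hvd
      linarith

/-! ### The array of a family of weight `N` lies in `SSD (n + 1) k N` -/

theorem valleyD_props {n k : ℕ} {b : Fin k → ℕ} {h : ℕ → Fin k → Bool} {L x : ℕ} {t : Fin k}
    (hH : h ∈ Hist k L) (hV : ∀ x ≤ L, ValidD n x (pos b h x)) (hv : ValleyD n b h x t) :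
    1 ≤ x ∧ x < L ∧ 1 ≤ yD b h x t ∧ yD b h x t ≤ 2 * n + 1 := by
  obtain ⟨h1, h2, h3⟩ := hv
  have hx1 : 1 ≤ x := by
    by_contra hcon
    have : x = 0 := by omega
    subst this
    rw [h1] at h2
    exact absurd h2 (by simp)
  have hxL : x < L := by
    by_contra hcon
    have := (d_mem_Hist k L h).1 hH x (by omega)
    rw [this] at h2
    exact absurd h2 (by simp)
  refine ⟨hx1, hxL, validD_ge (hV x hxL.le) t, ?_⟩
  have h4 := validD_le (hV (x + 1) hxL) t
  rw [yD_succ, if_pos h2] at h4
  have h5 := yD_parity b h x t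
  have h6 : yD b h x t ≠ 2 * n + 2 := by
    intro hcon
    apply h3
    simp only [yD] at hcon
    linarith
  omega

theorem sum_arrD {n k : ℕ} {b : Fin k → ℕ} {h : ℕ → Fin k → Bool} {L x : ℕ}
    (hH : h ∈ Hist k L) (hV : ∀ x ≤ L, ValidD n x (pos b h x)) :
    ∑ c ∈ Finset.Icc 1 (2 * n + 1), arrD n b h x c =
      (by classical exact (Finset.univ.filter fun t : Fin k => ValleyD n b h x t).card) := by
  classical
  have h1 := Finset.card_eq_sum_card_fiberwise
    (s := Finset.univ.filter fun t : Fin k => ValleyD n b h x t)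
    (f := fun t => (yD b h x t).toNat) (t := Finset.Icc 1 (2 * n + 1)) (by
      intro t ht
      rw [Finset.mem_coe, mem_filter] at ht
      obtain ⟨_, _, h3, h4⟩ := valleyD_props hH hV ht.2
      rw [Finset.mem_coe, mem_Icc]
      show 1 ≤ (yD b h x t).toNat ∧ (yD b h x t).toNat ≤ 2 * n + 1
      omega)
  rw [h1]
  refine Finset.sum_congr rfl (fun c hc => ?_)
  unfold arrD
  congr 1
  ext t
  simp only [mem_filter, mem_univ, true_and]
  constructor
  · rintro ⟨h2, h3⟩
    exact ⟨h2, by omega⟩
  · rintro ⟨h2, h3⟩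
    obtain ⟨_, _, h4, h5⟩ := valleyD_props hH hV h2
    exact ⟨h2, by omega⟩

theorem wtD_eq {n k : ℕ} {b : Fin k → ℕ} {h : ℕ → Fin k → Bool} {L : ℕ}
    (hH : h ∈ Hist k L) (hV : ∀ x ≤ L, ValidD n x (pos b h x)) (N : ℕ)
    (hN : ∀ x c, arrD n b h x c ≠ 0 → 1 ≤ c → c ≤ 2 * n + 1 → x ≤ N) :
    wtD n b L h = ∑ i ∈ Finset.range (N + 1), ∑ c ∈ Finset.Icc 1 (2 * n + 1),
      i * arrD n b h i c := by
  classical
  simp only [← Finset.mul_sum]
  have h1 : wtD n b L h = ∑ x ∈ range L, x * ∑ c ∈ Finset.Icc 1 (2 * n + 1), arrD n b h x c := by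
    unfold wtD
    refine Finset.sum_congr rfl (fun x _ => ?_)
    rw [sum_arrD hH hV]
  rw [h1]
  have h2 : ∑ x ∈ range L, x * ∑ c ∈ Finset.Icc 1 (2 * n + 1), arrD n b h x c =
      ∑ x ∈ range (L + N + 1), x * ∑ c ∈ Finset.Icc 1 (2 * n + 1), arrD n b h x c := by
    apply Finset.sum_subset (Finset.range_mono (by omega))
    intro x _ hx
    rw [sum_arrD hH hV, Finset.card_eq_zero.2, mul_zero]
    rw [Finset.filter_eq_empty_iff]
    intro t _ ht
    have := (valleyD_props hH hV ht).2.1
    exact hx (mem_range.2 this)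
  have h3 : ∑ x ∈ Finset.range (N + 1), x * ∑ c ∈ Finset.Icc 1 (2 * n + 1), arrD n b h x c =
      ∑ x ∈ range (L + N + 1), x * ∑ c ∈ Finset.Icc 1 (2 * n + 1), arrD n b h x c := by
    apply Finset.sum_subset
    · intro x hx
      rw [mem_range] at hx
      rw [mem_range]; omega
    · intro x _ hx
      rw [Finset.sum_eq_zero, mul_zero]
      intro c hc
      rw [mem_Icc] at hc
      by_contra hcon
      have := hN x c hcon hc.1 hc.2
      exact hx (by rw [mem_range]; omega)
  rw [h2, h3]

theorem arrD_mem (n : ℕ) (k : ℕ → ℕ) (l N : ℕ)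
    (h : ℕ → Fin (∑ t ∈ range (n + 2), k t) → Bool)
    (hF : h ∈ FamD n (fun t : Fin (∑ t ∈ range (n + 2), k t) => bposD n k t) (2 * l))
    (hw : wtD n (fun t : Fin (∑ t ∈ range (n + 2), k t) => bposD n k t) (2 * l) h = N) :
    arrD n (fun t : Fin (∑ t ∈ range (n + 2), k t) => bposD n k t) h ∈ SSD (n + 1) k N := by
  classical
  set b := (fun t : Fin (∑ t ∈ range (n + 2), k t) => bposD n k t) with hb
  rw [FamD, mem_filter] at hF
  obtain ⟨hH, hV, hT⟩ := hF
  have hcnt : ∀ j, j ≤ n + 1 →
      (univ.filter fun t : Fin (∑ t ∈ range (n + 2), k t) => yD b h 0 t = 2 * j + 1).card =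
        k j := by
    intro j hj
    rw [← d_cnt (n + 1) k j hj]
    congr 1
    ext t
    simp only [mem_filter, mem_univ, true_and, yD_zero, hb]
    have e : bposD n k t = bpos (n + 1) k t := rfl
    rw [e]
    omega
  have hbound : ∀ x c, arrD n b h x c ≠ 0 → 1 ≤ x ∧ x ≤ N ∧ 1 ≤ c ∧ c ≤ 2 * n + 1 ∧
      Odd (c + x) := by
    intro x c hne
    unfold arrD at hne
    obtain ⟨t, ht⟩ := Finset.card_ne_zero.1 hne
    rw [mem_filter] at ht
    obtain ⟨_, ht1, ht2⟩ := ht
    obtain ⟨h1, h2, h3, h4⟩ := valleyD_props hH hV ht1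
    have h5 := yD_parity b h x t
    refine ⟨h1, ?_, by omega, by omega, ?_⟩
    · rw [← hw]
      unfold wtD
      have h6 : x ≤ x * (Finset.univ.filter fun t => ValleyD n b h x t).card := by
        have : 0 < (Finset.univ.filter fun t => ValleyD n b h x t).card :=
          Finset.card_pos.2 ⟨t, by simpa using ht1⟩
        nlinarith
      refine h6.trans ?_
      exact Finset.single_le_sum
        (f := fun x => x * (Finset.univ.filter fun t => ValleyD n b h x t).card)
        (fun _ _ => Nat.zero_le _) (mem_range.2 h2)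
    · rw [ht2] at h5
      exact_mod_cast h5
  have hm1 : 2 * (n + 1) - 1 = 2 * n + 1 := by omega
  have hm2 : 2 * (n + 1) - 2 = 2 * n := by omega
  unfold SSD
  rw [hm1, hm2, Set.mem_ofPred_eq]
  refine ⟨hbound, ?_, ?_⟩
  · rw [← wtD_eq hH hV N (fun x c h1 _ _ => (hbound x c h1).2.1), hw]
  · intro p hp1 hp2
    -- the sum is a double count
    have h1 : ∀ c ∈ Finset.Icc 1 (2 * n + 1),
        (if 1 ≤ p c then arrD n b h (p c).toNat c
               else if p c = 0 then (if c = 1 then k 0 else 0) +
                 (if c = 2 * n + 1 then k (n + 1) else 0)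
               else if Even c ∧ 2 ≤ c ∧ c ≤ 2 * n then k (c / 2) else 0) =
        (univ.filter fun t => inc n b h p t c).card := by
      intro c hc
      rw [mem_Icc] at hc
      obtain ⟨hge, hpar⟩ := hp1 c (by rw [mem_Icc]; exact hc)
      by_cases h2 : 1 ≤ p c
      · rw [if_pos h2]
        unfold arrD
        congr 1
        ext t
        simp only [mem_filter, mem_univ, true_and, inc, if_pos h2]
      · rw [if_neg h2]
        by_cases h3 : p c = 0
        · rw [if_pos h3]
          have hu : (univ.filter fun t => inc n b h p t c) =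
              (univ.filter fun t => c = 1 ∧ yD b h 0 t = 1) ∪
                (univ.filter fun t => c = 2 * n + 1 ∧ yD b h 0 t = 2 * n + 3) := by
            ext t
            simp only [mem_filter, mem_univ, true_and, inc, if_neg h2, if_pos h3, mem_union]
          rw [hu, Finset.card_union_of_disjoint]
          · congr 1
            · by_cases hc1 : c = 1
              · have h0 := hcnt 0 (by omega)
                rw [if_pos hc1, ← h0]
                congr 1
                ext t
                simp [hc1]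
              · rw [if_neg hc1, eq_comm, Finset.card_eq_zero, Finset.filter_eq_empty_iff]
                intro t _ hcon
                exact hc1 hcon.1
            · by_cases hc1 : c = 2 * n + 1
              · have h0 := hcnt (n + 1) (by omega)
                rw [if_pos hc1, ← h0]
                congr 1
                ext t
                simp only [mem_filter, mem_univ, true_and, hc1]
                push_cast
                constructor
                · intro h'; linarith
                · intro h'; linarith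
              · rw [if_neg hc1, eq_comm, Finset.card_eq_zero, Finset.filter_eq_empty_iff]
                intro t _ hcon
                exact hc1 hcon.1
          · rw [Finset.disjoint_left]
            intro t ht ht'
            simp only [mem_filter, mem_univ, true_and] at ht ht'
            omega
        · rw [if_neg h3]
          have h4 : p c = -1 := by omega
          have heven : Even c := by
            rw [h4] at hpar
            rcases Nat.even_or_odd c with he | ho
            · exact he
            · exfalso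
              obtain ⟨r, hr⟩ := ho
              obtain ⟨s, hs⟩ := hpar
              omega
          obtain ⟨j, hj⟩ := heven
          rw [if_pos ⟨⟨j, hj⟩, by omega, by omega⟩]
          have e1 : c / 2 = j := by omega
          rw [e1, ← hcnt j (by omega)]
          congr 1
          ext t
          simp only [mem_filter, mem_univ, true_and, inc, if_neg h2, if_neg h3]
          omega
    rw [Finset.sum_congr rfl h1]
    have h2 : ∑ c ∈ Finset.Icc 1 (2 * n + 1), (univ.filter fun t => inc n b h p t c).card =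
        ∑ t : Fin (∑ t ∈ range (n + 2), k t),
          ((Finset.Icc 1 (2 * n + 1)).filter fun c => inc n b h p t c).card := by
      simp only [Finset.card_filter]
      rw [Finset.sum_comm]
    rw [h2]
    calc ∑ t : Fin (∑ t ∈ range (n + 2), k t),
          ((Finset.Icc 1 (2 * n + 1)).filter fun c => inc n b h p t c).card
        ≤ ∑ t : Fin (∑ t ∈ range (n + 2), k t), 1 := by
          apply Finset.sum_le_sum
          intro t _
          rw [Finset.card_le_one]
          intro c hc c' hc'
          rw [mem_filter, mem_Icc] at hc hc'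
          have hp1' : ∀ c ∈ Finset.Icc 1 (2 * n + 1), -1 ≤ p c := fun c hc => (hp1 c hc).1
          have hp2' : ∀ c, 1 ≤ c → c + 1 ≤ 2 * n + 1 → |p c - p (c + 1)| = 1 := by
            intro c hc1 hc2
            exact hp2 c (by rw [mem_Icc]; omega)
          rcases lt_trichotomy c c' with h3 | h3 | h3
          · exact (pathD_le n b h t p hp1' hp2' c c' hc.1.1 h3 hc'.1.2 hc.2 hc'.2).elim
          · exact h3
          · exact (pathD_le n b h t p hp1' hp2' c' c hc'.1.1 h3 hc.1.2 hc'.2 hc.2).elim
      _ = ∑ t ∈ range (n + 2), k t := by simp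

end Pool.Agent.H680_DP
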