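import Pool.Agent.H680_DP.DDa

set_option autoImplicit false

namespace Pool.Agent.H680_DP

open Finset Pool.Agent.H680_CP

/-! ### Injectivity -/

theorem valleyD_iff {n k : ℕ} {b : Fin k → ℕ} {h : ℕ → Fin k → Bool} {x c : ℕ} {t : Fin k}
    (hc : c ≤ 2 * n + 1) :
    (ValleyD n b h (x + 1) t ∧ yD b h (x + 1) t = c) ↔
      ((h x t = false ∧ h (x + 1) t = true) ∧ yD b h (x + 1) t = c) := by
  unfold ValleyD
  rw [Nat.add_sub_cancel]
  constructor
  · rintro ⟨⟨h1, h2, _⟩, h4⟩
    exact ⟨⟨h1, h2⟩, h4⟩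
  · rintro ⟨⟨h1, h2⟩, h4⟩
    refine ⟨⟨h1, h2, ?_⟩, h4⟩
    intro hcon
    simp only [yD] at h4
    omega

/-- the number of paths at height at most `c` -/
noncomputable def nD {k : ℕ} (b : Fin k → ℕ) (h : ℕ → Fin k → Bool) (c x : ℕ) : ℕ :=
  (Finset.univ.filter fun t : Fin k => yD b h x t ≤ c).card

theorem nD_rec {n k : ℕ} {b : Fin k → ℕ} {h : ℕ → Fin k → Bool} {L x c : ℕ}
    (hV : ∀ x ≤ L, ValidD n x (pos b h x)) (hx : x + 2 ≤ L) (hc : c + 1 ≤ 2 * n + 1)
    (hpar : Odd (c + x)) :
    nD b h (c + 1) (x + 1) = arrD n b h (x + 1) (c + 1) + max (nD b h c x) (nD b h c (x + 2)) := by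
  have h1 := d_rec (yD b h x) (yD b h (x + 1)) (yD b h (x + 2))
    (validD_mono (hV x (by omega))) (validD_mono (hV (x + 2) (by omega))) (h x) (h (x + 1))
    (fun t => yD_succ b h x t) (fun t => yD_succ b h (x + 1) t) ((c + 1 : ℕ) : ℤ) (by
      intro t
      obtain ⟨r, hr⟩ := yD_parity b h (x + 1) t
      obtain ⟨s, hs⟩ := hpar
      push_cast at hr ⊢
      exact ⟨r + s - x + 1, by have : (c : ℤ) + x = 2 * s + 1 := by exact_mod_cast hs
                               linarith⟩)
  have h2 : ((c + 1 : ℕ) : ℤ) - 1 = c := by push_cast; ring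
  rw [h2] at h1
  unfold nD
  rw [h1]
  congr 1
  unfold arrD
  congr 1
  ext t
  simp only [mem_filter, mem_univ, true_and]
  rw [valleyD_iff hc]

theorem inj_D {n k : ℕ} {b : Fin k → ℕ} {l : ℕ} {h h' : ℕ → Fin k → Bool}
    (hF : h ∈ FamD n b (2 * l)) (hF' : h' ∈ FamD n b (2 * l)) (heq : arrD n b h = arrD n b h') :
    h = h' := by
  classical
  rw [FamD, mem_filter] at hF hF'
  obtain ⟨hH, hV, hT⟩ := hF
  obtain ⟨hH', hV', hT'⟩ := hF'
  have hN : ∀ c, c ≤ 2 * n + 1 → ∀ x, x ≤ 2 * l → Odd (c + x) → nD b h c x = nD b h' c x := by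
    intro c
    induction c with
    | zero =>
      intro _ x hx _
      unfold nD
      rw [Finset.filter_eq_empty_iff.2, Finset.filter_eq_empty_iff.2]
      · intro t _ hcon
        have := validD_ge (hV' x hx) t
        push_cast at hcon
        linarith
      · intro t _ hcon
        have := validD_ge (hV x hx) t
        push_cast at hcon
        linarith
    | succ c ih =>
      intro hc x hx hpar
      rcases Nat.eq_zero_or_pos x with rfl | hx0
      · unfold nD
        simp only [yD_zero]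
      · rcases eq_or_lt_of_le hx with rfl | hxl
        · unfold nD
          rw [Finset.filter_eq_empty_iff.2, Finset.filter_eq_empty_iff.2]
          · intro t _ hcon
            have h1 := hT' t
            simp only [yD] at hcon
            push_cast at hcon h1
            have : (c : ℤ) + 1 ≤ 2 * n + 1 := by exact_mod_cast hc
            linarith
          · intro t _ hcon
            have h1 := hT t
            simp only [yD] at hcon
            push_cast at hcon h1
            have : (c : ℤ) + 1 ≤ 2 * n + 1 := by exact_mod_cast hc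
            linarith
        · obtain ⟨y, rfl⟩ : ∃ y, x = y + 1 := ⟨x - 1, by omega⟩
          have hpar' : Odd (c + y) := by
            obtain ⟨r, hr⟩ := hpar
            exact ⟨r - 1, by omega⟩
          have hpar'' : Odd (c + (y + 2)) := by
            obtain ⟨r, hr⟩ := hpar
            exact ⟨r, by omega⟩
          rw [nD_rec hV (by omega) hc hpar', nD_rec hV' (by omega) hc hpar', heq,
            ih (by omega) y (by omega) hpar', ih (by omega) (y + 2) (by omega) hpar'']
  have hle : ∀ x, x ≤ 2 * l → ∀ c, c ≤ 2 * n + 1 → Odd (c + x) → ∀ t,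
      (yD b h x t ≤ c ↔ yD b h' x t ≤ c) := by
    intro x hx c hc hpar t
    have h1 := d_initial (Finset.univ.filter fun t : Fin k => yD b h x t ≤ c) (by
      intro t t' htt' ht'
      simp only [mem_filter, mem_univ, true_and] at ht' ⊢
      exact (validD_mono (hV x hx) htt').trans ht') t
    have h2 := d_initial (Finset.univ.filter fun t : Fin k => yD b h' x t ≤ c) (by
      intro t t' htt' ht'
      simp only [mem_filter, mem_univ, true_and] at ht' ⊢
      exact (validD_mono (hV' x hx) htt').trans ht') t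
    simp only [mem_filter, mem_univ, true_and] at h1 h2
    rw [h1, h2]
    have h3 := hN c hc x hx hpar
    unfold nD at h3
    rw [h3]
  have hYeq : ∀ x, x ≤ 2 * l → ∀ t, yD b h x t = yD b h' x t := by
    intro x hx t
    have p1 := yD_parity b h x t
    have p2 := yD_parity b h' x t
    have g1 := validD_ge (hV x hx) t
    have g2 := validD_ge (hV' x hx) t
    have l1 := validD_le (hV x hx) t
    have l2 := validD_le (hV' x hx) t
    rcases lt_trichotomy (yD b h x t) (yD b h' x t) with h1 | h1 | h1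
    · exfalso
      have h2 : yD b h x t + 2 ≤ yD b h' x t := by
        obtain ⟨r, hr⟩ := p1
        obtain ⟨s, hs⟩ := p2
        omega
      have h3 := hle x hx (yD b h x t).toNat (by omega) (by
        obtain ⟨r, hr⟩ := p1
        exact ⟨r.toNat, by omega⟩) t
      have e : (((yD b h x t).toNat : ℕ) : ℤ) = yD b h x t := by omega
      rw [e] at h3
      have := h3.1 le_rfl
      linarith
    · exact h1
    · exfalso
      have h2 : yD b h' x t + 2 ≤ yD b h x t := by
        obtain ⟨r, hr⟩ := p1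
        obtain ⟨s, hs⟩ := p2
        omega
      have h3 := hle x hx (yD b h' x t).toNat (by omega) (by
        obtain ⟨r, hr⟩ := p2
        exact ⟨r.toNat, by omega⟩) t
      have e : (((yD b h' x t).toNat : ℕ) : ℤ) = yD b h' x t := by omega
      rw [e] at h3
      have := h3.2 le_rfl
      linarith
  funext x
  rcases Nat.lt_or_ge x (2 * l) with hx | hx
  · funext t
    have e0 := hYeq x hx.le t
    have e1 := hYeq (x + 1) hx t
    rw [yD_succ, yD_succ, e0] at e1
    rcases h1 : h x t with _ | _ <;> rcases h2 : h' x t with _ | _ <;> simp [h1, h2] at e1 ⊢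
  · rw [(d_mem_Hist k _ h).1 hH x hx, (d_mem_Hist k _ h').1 hH' x hx]

/-! ### Maximal path sums -/

/-- boundary-extended entries -/
def fD (n : ℕ) (k : ℕ → ℕ) (g : ℕ → ℕ → ℕ) (c : ℕ) (x : ℤ) : ℕ :=
  if 1 ≤ x then g x.toNat c
  else if x = 0 then (if c = 1 then k 0 else 0) + (if c = 2 * n + 1 then k (n + 1) else 0)
  else if Even c ∧ 2 ≤ c ∧ c ≤ 2 * n then k (c / 2) else 0

/-- maximal path sums -/
def tD (n : ℕ) (k : ℕ → ℕ) (g : ℕ → ℕ → ℕ) : ℕ → ℤ → ℕ
  | 0, _ => 0
  | c + 1, x => if x < -1 then 0 else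
      fD n k g (c + 1) x + max (tD n k g c (x - 1)) (tD n k g c (x + 1))

theorem tD_path (n : ℕ) (k : ℕ → ℕ) (f : ℕ → ℕ → ℕ) (c : ℕ) (hc : 1 ≤ c) :
    ∀ x : ℤ, -1 ≤ x → Odd (x + c) → ∃ p : ℕ → ℤ, p c = x ∧
      (∀ c' ∈ Finset.Icc 1 c, -1 ≤ p c' ∧ Odd (p c' + (c' : ℤ))) ∧
      (∀ c', 1 ≤ c' → c' + 1 ≤ c → |p c' - p (c' + 1)| = 1) ∧
      tD n k f c x = ∑ c' ∈ Finset.Icc 1 c, fD n k f c' (p c') := by
  induction c, hc using Nat.le_induction with
  | base =>
    intro x hx hpar
    refine ⟨fun _ => x, rfl, ?_, ?_, ?_⟩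
    · intro c' hc'
      rw [mem_Icc] at hc'
      have : c' = 1 := by omega
      subst this
      exact ⟨hx, hpar⟩
    · intro c' h1 h2; omega
    · simp [tD, not_lt.2 hx]
  | succ c hc ih =>
    intro x hx hpar
    obtain ⟨x', hx', hxx', hmax⟩ : ∃ x' : ℤ, -1 ≤ x' ∧ |x' - x| = 1 ∧
        max (tD n k f c (x - 1)) (tD n k f c (x + 1)) = tD n k f c x' := by
      rcases eq_or_lt_of_le hx with h1 | h1
      · refine ⟨x + 1, by omega, by simp, ?_⟩
        apply max_eq_right
        have : tD n k f c (x - 1) = 0 := by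
          obtain ⟨d, rfl⟩ : ∃ d, c = d + 1 := ⟨c - 1, by omega⟩
          rw [tD, if_pos (by omega)]
        rw [this]; exact Nat.zero_le _
      · rcases le_total (tD n k f c (x - 1)) (tD n k f c (x + 1)) with h2 | h2
        · exact ⟨x + 1, by omega, by simp, max_eq_right h2⟩
        · exact ⟨x - 1, by omega, by simp, max_eq_left h2⟩
    have hpar' : Odd (x' + c) := by
      obtain ⟨r, hr⟩ := hpar
      push_cast at hr
      rcases (abs_eq (by norm_num : (0 : ℤ) ≤ 1)).1 hxx' with h6 | h6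
      · exact ⟨r, by linarith⟩
      · exact ⟨r - 1, by linarith⟩
    obtain ⟨p, hp0, hp1, hp2, hp3⟩ := ih x' hx' hpar'
    refine ⟨Function.update p (c + 1) x, by simp, ?_, ?_, ?_⟩
    · intro c' hc'
      rw [mem_Icc] at hc'
      by_cases h1 : c' = c + 1
      · subst h1; simp only [Function.update_self]; exact ⟨hx, hpar⟩
      · rw [Function.update_of_ne h1]
        exact hp1 c' (by rw [mem_Icc]; omega)
    · intro c' h1 h2
      rw [Function.update_of_ne (by omega)]
      by_cases h3 : c' = c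
      · subst h3
        rw [Function.update_self, hp0]; exact hxx'
      · rw [Function.update_of_ne (by omega)]
        exact hp2 c' h1 (by omega)
    · rw [tD, if_neg (not_lt.2 hx), hmax, hp3, Finset.sum_Icc_succ_top (by omega),
        Function.update_self, add_comm]
      congr 1
      refine Finset.sum_congr rfl (fun c' hc' => ?_)
      rw [mem_Icc] at hc'
      rw [Function.update_of_ne (by omega)]

theorem tD_le_right (n : ℕ) (k : ℕ → ℕ) (f : ℕ → ℕ → ℕ) (c : ℕ) (x : ℤ) (hx : -1 ≤ x + 1) :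
    tD n k f c x ≤ tD n k f (c + 1) (x + 1) := by
  rw [tD, if_neg (not_lt.2 hx)]
  have : x + 1 - 1 = x := by ring
  rw [this]
  exact (le_max_left _ _).trans (Nat.le_add_left _ _)

theorem tD_le_left (n : ℕ) (k : ℕ → ℕ) (f : ℕ → ℕ → ℕ) (c : ℕ) (x : ℤ) (hx : -1 ≤ x) :
    tD n k f c (x + 1) ≤ tD n k f (c + 1) x := by
  rw [tD, if_neg (not_lt.2 hx)]
  exact (le_max_right _ _).trans (Nat.le_add_left _ _)

/-- one step along the boundary, `1 ≤ j ≤ n` -/
theorem tD_step (n : ℕ) (k : ℕ → ℕ) (f : ℕ → ℕ → ℕ) (j : ℕ) (hj : j + 1 ≤ n) :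
    tD n k f (2 * j + 1) 0 + k (j + 1) ≤ tD n k f (2 * (j + 1)) (-1) ∧
    tD n k f (2 * j + 1) 0 + k (j + 1) ≤ tD n k f (2 * (j + 1) + 1) 0 := by
  have h1 : tD n k f (2 * j + 1) 0 + k (j + 1) ≤ tD n k f (2 * (j + 1)) (-1) := by
    have e0 : 2 * (j + 1) = (2 * j + 1) + 1 := by ring
    have e3 : tD n k f (2 * j + 1 + 1) (-1) = fD n k f (2 * j + 1 + 1) (-1) +
        max (tD n k f (2 * j + 1) (-1 - 1)) (tD n k f (2 * j + 1) (-1 + 1)) := by
      rw [tD, if_neg (by norm_num)]
    rw [e0, e3]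
    have e1 : fD n k f (2 * j + 1 + 1) (-1) = k (j + 1) := by
      unfold fD
      rw [if_neg (by norm_num), if_neg (by norm_num), if_pos ⟨⟨j + 1, by ring⟩, by omega, by omega⟩]
      congr 1; omega
    rw [e1]
    have e2 : (-1 : ℤ) + 1 = 0 := by norm_num
    rw [e2, add_comm]
    exact Nat.add_le_add_left (le_max_right _ _) _
  refine ⟨h1, h1.trans ?_⟩
  exact tD_le_right n k f (2 * (j + 1)) (-1) (by norm_num)

theorem tD_boundary (n : ℕ) (k : ℕ → ℕ) (f : ℕ → ℕ → ℕ) (j i : ℕ) (hji : j + i ≤ n) :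
    tD n k f (2 * j + 1) 0 + ∑ t ∈ range (j + i + 1), k t ≤
      tD n k f (2 * (j + i) + 1) 0 + ∑ t ∈ range (j + 1), k t := by
  induction i with
  | zero => simp
  | succ i ih =>
    have h1 := (tD_step n k f (j + i) (by omega)).2
    have e1 : j + (i + 1) = (j + i) + 1 := by ring
    have ih' := ih (by omega)
    rw [e1, Finset.sum_range_succ]
    omega

theorem tD_zero (n : ℕ) (k : ℕ → ℕ) (f : ℕ → ℕ → ℕ) (N : ℕ) (hf : ∀ i c, N < i → f i c = 0)
    (c : ℕ) : ∀ x : ℤ, (N : ℤ) + c < x → tD n k f c x = 0 := by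
  induction c with
  | zero => intro x _; rfl
  | succ c ih =>
    intro x hx
    push_cast at hx
    rw [tD, if_neg (by omega), ih (x - 1) (by omega), ih (x + 1) (by omega)]
    unfold fD
    rw [if_pos (by omega), hf _ _ (by omega)]
    simp

/-- the entries at `x = 0` of the first and of the last row -/
theorem tD_first (n : ℕ) (k : ℕ → ℕ) (f : ℕ → ℕ → ℕ) : k 0 ≤ tD n k f 1 0 := by
  rw [tD, if_neg (by norm_num)]
  have : k 0 ≤ fD n k f (0 + 1) 0 := by
    unfold fD
    rw [if_neg (by norm_num), if_pos rfl, if_pos (by norm_num)]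
    omega
  omega

/-- `T(2n, x') + k_(n+1) ≤ T(2n+1, 0)` for `x' = ±1` -/
theorem tD_last (n : ℕ) (k : ℕ → ℕ) (f : ℕ → ℕ → ℕ) :
    k (n + 1) + max (tD n k f (2 * n) (-1)) (tD n k f (2 * n) 1) ≤ tD n k f (2 * n + 1) 0 := by
  rw [tD, if_neg (by norm_num)]
  have h1 : k (n + 1) ≤ fD n k f (2 * n + 1) 0 := by
    unfold fD
    rw [if_neg (by norm_num), if_pos rfl, if_pos rfl]
    omega
  have e1 : (0 : ℤ) - 1 = -1 := by norm_num
  have e2 : (0 : ℤ) + 1 = 1 := by norm_num
  rw [e1, e2]
  omega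

end Pool.Agent.H680_DP
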