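import Pool.Agent.H680_CP.Defs

/-!
# Definitions for the product formula for admissible coloured partitions of type D (MP_918571_co)

The number of rows is `2 n - 1`; the path model uses `n' = n - 1`, so that there are `2 n' + 1` rows.
-/

set_option autoImplicit false

namespace Pool.Agent.H680_DP

open Finset Pool.Agent.H680_CP

/-- The coefficient function: supported on `B ≡ b` and `B ≡ 1 - b (mod 2M)`. -/
noncomputable def CfD (q : ℝ) (K M b : ℕ) (t B : ℤ) : ℝ :=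
  if (2 * (M : ℤ)) ∣ B - b then
    q ^ ((K : ℤ) * (2 * M * ((B - b) / (2 * M)) ^ 2 + (2 * b - 1) * ((B - b) / (2 * M))) - t * B)
  else if (2 * (M : ℤ)) ∣ B + b - 1 then
    - q ^ ((K : ℤ) * (2 * M * ((B + b - 1) / (2 * M)) ^ 2 -
      (2 * b - 1) * ((B + b - 1) / (2 * M))) - t * B)
  else 0

/-- The rows of the determinants. -/
noncomputable def RwD (q : ℝ) (K M b : ℕ) (t : ℤ) (L : ℕ) (a : ℤ) : ℝ :=
  ∑ u ∈ range (L + 1), G q L (u : ℤ) * CfD q K M b t (a - u)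

/-- `θ(q^(b-a), q^(a+b-1); q^(2M))`, used for `1 ≤ a < b ≤ M`. -/
noncomputable def vtD (q : ℝ) (M a b : ℕ) : ℝ :=
  E q (b - a) (2 * M) * E q (2 * M - (b - a)) (2 * M) *
    (E q (a + b - 1) (2 * M) * E q (2 * M - (a + b - 1)) (2 * M))

/-- The value of the extended array of type D: `n` is the parameter of the frozen statement. -/
def FxD (n : ℕ) (k : ℕ → ℕ) (g : ℕ → ℕ → ℕ) (c : ℕ) (x : ℤ) : ℕ :=
  if 1 ≤ x then g x.toNat c
  else if x = 0 then (if c = 1 then k 0 else 0) + (if c = 2 * n - 1 then k n else 0)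
  else if Even c ∧ 2 ≤ c ∧ c ≤ 2 * n - 2 then k (c / 2) else 0

/-- The set of the frozen statement. -/
def SSD (n : ℕ) (k : ℕ → ℕ) (N : ℕ) : Set (ℕ → ℕ → ℕ) :=
  {g : ℕ → ℕ → ℕ |
        (∀ i c, g i c ≠ 0 → 1 ≤ i ∧ i ≤ N ∧ 1 ≤ c ∧ c ≤ 2*n-1 ∧ Odd (c+i)) ∧
        (∑ i ∈ Finset.range (N+1), ∑ c ∈ Finset.Icc 1 (2*n-1), i * g i c) = N ∧
        ∀ p : ℕ → ℤ, (∀ c ∈ Finset.Icc 1 (2*n-1), -1 ≤ p c ∧ Odd (p c + (c : ℤ))) →
          (∀ r ∈ Finset.Icc 1 (2*n-2), |p r - p (r+1)| = 1) →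
          (∑ c ∈ Finset.Icc 1 (2*n-1),
              (if 1 ≤ p c then g (p c).toNat c
               else if p c = 0 then (if c = 1 then k 0 else 0) + (if c = 2*n-1 then k n else 0)
               else if Even c ∧ 2 ≤ c ∧ c ≤ 2*n-2 then k (c/2) else 0))
            ≤ ∑ t ∈ Finset.range (n+1), k t}

/-! ### Families of lattice paths

The path `t` is at time `x` at `pos b h x t`, its height is `2 * pos b h x t - x - 1`, and its
unshifted height is `2 * pos b h x t - x - 1 - 2 * t`. Here `n` is `n'` (the number of rows is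
`2 n + 1`). -/

/-- The admissible positions at time `x`. -/
def ValidD (n : ℕ) {k : ℕ} (x : ℕ) (a : Fin k → ℤ) : Prop :=
  StrictMono a ∧ (∀ t, (x : ℤ) + 2 ≤ 2 * a t) ∧ ∀ t : Fin k, 2 * a t ≤ x + 2 * n + 2 * (t : ℕ) + 4

/-- Is the path `t` at time `x` in a counted valley? -/
def ValleyD (n : ℕ) {k : ℕ} (b : Fin k → ℕ) (h : ℕ → Fin k → Bool) (x : ℕ) (t : Fin k) : Prop :=
  h (x - 1) t = false ∧ h x t = true ∧ 2 * pos b h x t ≠ x + 2 * n + 2 * (t : ℕ) + 3

/-- The weight. -/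
noncomputable def wtD (n : ℕ) {k : ℕ} (b : Fin k → ℕ) (L : ℕ) (h : ℕ → Fin k → Bool) : ℕ := by
  classical
  exact ∑ x ∈ range L, x * (Finset.univ.filter fun t : Fin k => ValleyD n b h x t).card

/-- The families of length `L` which end at the top (`L` even). -/
noncomputable def FamD (n : ℕ) {k : ℕ} (b : Fin k → ℕ) (L : ℕ) :
    Finset (ℕ → Fin k → Bool) := by
  classical
  exact (Hist k L).filter fun h => (∀ x ≤ L, ValidD n x (pos b h x)) ∧
    ∀ t : Fin k, 2 * pos b h L t = L + 2 * n + 2 * (t : ℕ) + 4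

/-- The starting positions: `bposD n k t = t + 1 + #{j ∈ [1, n + 1] : k_0 + ... + k_{j-1} ≤ t}`
(here `n` is `n'`, so `j` runs up to `n' + 1`). -/
def bposD (n : ℕ) (k : ℕ → ℕ) (t : ℕ) : ℕ :=
  t + 1 + ((Finset.Icc 1 (n + 1)).filter fun j => ∑ i ∈ range j, k i ≤ t).card

end Pool.Agent.H680_DP
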