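import Pool.Agent.H680_DP.T1a
import Pool.Agent.H680_CP.T1d

set_option autoImplicit false

namespace Pool.Agent.H680_DP

open Finset Filter Topology Pool.Agent.H680_CP

section
variable {n k : ℕ} (b : Fin k → ℕ)

theorem wtD_update (n : ℕ) (h : ℕ → Fin k → Bool) (L : ℕ) (d : Fin k → Bool) :
    wtD n b L (Function.update h L d) = wtD n b L h := by
  classical
  unfold wtD
  refine Finset.sum_congr rfl fun x hx => ?_
  have hx' : x < L := Finset.mem_range.1 hx
  congr 2
  ext t
  rw [Finset.mem_filter, Finset.mem_filter]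
  unfold ValleyD
  rw [Function.update_of_ne (by omega), Function.update_of_ne (by omega),
    pos_update b h L x (by omega)]

/-- step weights -/
noncomputable def wsD (q : ℝ) (n L : ℕ) (a : Fin k → ℤ) (d d' : Fin k → Bool) (t : Fin k) : ℝ :=
  if d t = false ∧ d' t = true ∧ 2 * a t ≠ L + 2 * n + 2 * (t : ℕ) + 3 then q ^ L else 1

theorem wtD_succ (q : ℝ) (n : ℕ) (h : ℕ → Fin k → Bool) (L : ℕ) :
    q ^ wtD n b (L + 1) h = q ^ wtD n b L h *
      ∏ t, (if h (L - 1) t = false ∧ h L t = true ∧
        2 * pos b h L t ≠ L + 2 * n + 2 * (t : ℕ) + 3 then q ^ L else 1) := by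
  classical
  have : wtD n b (L + 1) h = wtD n b L h +
      L * (Finset.univ.filter fun t : Fin k => ValleyD n b h L t).card := by
    unfold wtD
    rw [Finset.sum_range_succ]
  rw [this, pow_add, pow_mul]
  congr 1
  rw [Finset.prod_ite, Finset.prod_const, Finset.prod_const, one_pow, mul_one]
  congr

/-- generating function of the families of length `L` ending at `a`, with next step `d` -/
noncomputable def WsumD (q : ℝ) (n : ℕ) (L : ℕ) (a : Fin k → ℤ) (d : Fin k → Bool) : ℝ := by
  classical
  exact ∑ h ∈ Hist k L, if (∀ x ≤ L, ValidD n x (pos b h x)) ∧ pos b h L = a then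
    q ^ (wtD n b (L + 1) (Function.update h L d)) else 0

theorem WsumD_zero (q : ℝ) (hv : ValidD n 0 (fun t => (b t : ℤ))) (a : Fin k → ℤ)
    (d : Fin k → Bool) :
    WsumD b q n 0 a d = if (fun t => (b t : ℤ)) = a then 1 else 0 := by
  classical
  unfold WsumD
  simp only [Hist, Finset.sum_singleton]
  have h0 : pos b (fun _ _ => false : ℕ → Fin k → Bool) 0 = fun t => (b t : ℤ) := by
    funext t; simp [pos]
  have h1 : ∀ h : ℕ → Fin k → Bool, wtD n b (0 + 1) h = 0 := by
    intro h; simp [wtD]
  rw [h1, pow_zero]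
  by_cases ha : (fun t => (b t : ℤ)) = a
  · rw [if_pos ha, if_pos]
    refine ⟨fun x hx => ?_, by rw [h0]; exact ha⟩
    obtain rfl : x = 0 := by omega
    rw [h0]; exact hv
  · rw [if_neg ha, if_neg]
    rintro ⟨-, h2⟩
    rw [h0] at h2
    exact ha h2

theorem WsumD_succ (q : ℝ) (L : ℕ) (a : Fin k → ℤ) (d' : Fin k → Bool)
    (hv : ValidD n (L + 1) a) :
    WsumD b q n (L + 1) a d' = ∑ d : Fin k → Bool, (∏ t, wsD q n (L + 1) a d d' t) *
      WsumD b q n L (fun t => a t - (if d t = true then 1 else 0)) d := by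
  classical
  unfold WsumD
  rw [sum_Hist_succ]
  refine Finset.sum_congr rfl fun d _ => ?_
  rw [Finset.mul_sum]
  refine Finset.sum_congr rfl fun h hh => ?_
  rw [mul_ite, mul_zero]
  have e1 : pos b (Function.update h L d) (L + 1) = fun t => pos b h L t +
      (if d t = true then 1 else 0) := by
    funext t
    rw [pos_succ, pos_update b h L L le_rfl]
    simp
  have hcond : ((∀ x ≤ L + 1, ValidD n x (pos b (Function.update h L d) x)) ∧
      pos b (Function.update h L d) (L + 1) = a) ↔
      ((∀ x ≤ L, ValidD n x (pos b h x)) ∧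
        pos b h L = fun t => a t - (if d t = true then 1 else 0)) := by
    constructor
    · rintro ⟨h1, h2⟩
      refine ⟨fun x hx => ?_, ?_⟩
      · have := h1 x (by omega)
        rwa [pos_update b h L x hx] at this
      · rw [← h2, e1]
        funext t
        ring
    · rintro ⟨h1, h2⟩
      have h3 : pos b (Function.update h L d) (L + 1) = a := by
        rw [e1, h2]
        funext t
        ring
      refine ⟨fun x hx => ?_, h3⟩
      rcases Nat.eq_or_lt_of_le hx with hx | hx
      · subst hx
        rw [h3]; exact_mod_cast hv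
      · rw [pos_update b h L x (by omega)]
        exact h1 x (by omega)
  by_cases hc : (∀ x ≤ L, ValidD n x (pos b h x)) ∧
        pos b h L = fun t => a t - (if d t = true then 1 else 0)
  · rw [if_pos (hcond.2 hc), if_pos hc]
    rw [wtD_succ, wtD_update]
    rw [mul_comm]
    congr 1
    refine Finset.prod_congr rfl fun t _ => ?_
    unfold wsD
    have e2 : pos b (Function.update (Function.update h L d) (L + 1) d') (L + 1) = a := by
      rw [pos_update b _ (L + 1) (L + 1) le_rfl]
      exact (hcond.2 hc).2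
    rw [e2]
    have e3 : Function.update (Function.update h L d) (L + 1) d' (L + 1 - 1) = d := by
      rw [Function.update_of_ne (by omega)]
      simp
    rw [e3]
    simp
  · rw [if_neg (fun h' => hc (hcond.1 h')), if_neg hc]

theorem WsumD_invalid (q : ℝ) (L : ℕ) (a : Fin k → ℤ) (d : Fin k → Bool) (h : ¬ ValidD n L a) :
    WsumD b q n L a d = 0 := by
  classical
  unfold WsumD
  refine Finset.sum_eq_zero fun h' _ => ?_
  rw [if_neg]
  rintro ⟨h1, h2⟩
  apply h
  rw [← h2]
  exact h1 L le_rfl

theorem bD_upper (hb : StrictMono b) (hbM : ∀ t, b t ≤ n + k + 1) (t : Fin k) :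
    b t ≤ n + t + 2 := by
  have key : ∀ j : ℕ, ∀ t : Fin k, (t : ℕ) + j + 1 = k → b t + j ≤ n + k + 1 := by
    intro j
    induction j with
    | zero => intro t _; simpa using hbM t
    | succ j ih =>
      intro t ht
      have h1 : (t : ℕ) + 1 < k := by omega
      have h2 := ih ⟨t + 1, h1⟩ (by simp; omega)
      have h3 : b t < b ⟨t + 1, h1⟩ := hb (by
        rw [Fin.lt_def]; simp)
      omega
  have := key (k - 1 - t) t (by have := t.2; omega)
  have := t.2
  omega

theorem ValidD_b (hb : StrictMono b) (hb0 : ∀ t, 0 < b t) (hbM : ∀ t, b t ≤ n + k + 1) :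
    ValidD n 0 (fun t => (b t : ℤ)) := by
  refine ⟨fun i j hij => by simpa using hb hij, fun t => ?_, fun t => ?_⟩
  · have := hb0 t
    push_cast
    omega
  · have := bD_upper b hb hbM t
    push_cast
    omega

/-- the matrix of the determinant formula -/
noncomputable def rowmatD (q : ℝ) (n L : ℕ) (a : Fin k → ℤ) (d : Fin k → Bool) :
    Matrix (Fin k) (Fin k) ℝ :=
  Matrix.of fun t i => if d t = true ∧ 2 * a t ≠ L + 2 * n + 2 * (t : ℕ) + 3 then
      q ^ ((L : ℤ) - a t) * RwD q (k + 1) (n + k + 1) (b i) ((t : ℕ) : ℤ) L (a t)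
    else RwD q (k + 1) (n + k + 1) (b i) (((t : ℕ) : ℤ) + 1) L (a t)

theorem base_caseD (q : ℝ) (hq0 : 0 < q) (hb : StrictMono b) (hb0 : ∀ t, 0 < b t)
    (hbM : ∀ t, b t ≤ n + k + 1) (a : Fin k → ℤ) (d : Fin k → Bool) (hv : ValidD n 0 a) :
    WsumD b q n 0 a d =
      q ^ (∑ t : Fin k, ((t : ℕ) + 1) * b t) * (rowmatD b q n 0 a d).det := by
  rw [WsumD_zero b q (ValidD_b b hb hb0 hbM)]
  have hq : q ≠ 0 := hq0.ne'
  have h1 : rowmatD b q n 0 a d = Matrix.of fun t i => if a t = (b i : ℤ) then
      q ^ (-((((t : ℕ) : ℤ) + 1) * a t)) else 0 := by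
    ext t i
    have hent : rowmatD b q n 0 a d t i =
        CfD q (k + 1) (n + k + 1) (b i) (((t : ℕ) : ℤ) + 1) (a t) := by
      simp only [rowmatD, Matrix.of_apply]
      split_ifs with h
      · rw [Rw_zero, Cf_succ hq]
        simp
      · rw [Rw_zero]
    rw [hent]
    have h2 := hv.2.1 t
    have h3 := hv.2.2 t
    have h4 := t.2
    push_cast at h2 h3
    rw [Cf_init (hb0 i) (hbM i) _ _ (by omega) (by push_cast; omega)]
    simp
  rw [h1]
  by_cases hab : (fun t => (b t : ℤ)) = a
  · rw [if_pos hab]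
    subst hab
    have h2 : (Matrix.of fun t i : Fin k => if ((b t : ℕ) : ℤ) = (b i : ℤ) then
        q ^ (-((((t : ℕ) : ℤ) + 1) * ((b t : ℕ) : ℤ))) else (0 : ℝ)) =
        Matrix.diagonal fun t : Fin k => q ^ (-((((t : ℕ) : ℤ) + 1) * ((b t : ℕ) : ℤ))) := by
      ext t i
      rw [Matrix.diagonal_apply, Matrix.of_apply]
      by_cases hti : t = i
      · subst hti; simp
      · have : ¬ ((b t : ℕ) : ℤ) = (b i : ℤ) := by
          intro h'
          exact hti (hb.injective (by exact_mod_cast h'))
        rw [if_neg this, if_neg hti]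
    rw [h2, Matrix.det_diagonal, ← Finset.prod_pow_eq_pow_sum, ← Finset.prod_mul_distrib]
    symm
    refine Finset.prod_eq_one fun t _ => ?_
    rw [← zpow_natCast, ← zpow_add₀ hq]
    push_cast
    rw [add_neg_cancel, zpow_zero]
  · rw [if_neg hab]
    symm
    refine mul_eq_zero_of_right _ ?_
    rw [Matrix.det_apply]
    refine Finset.sum_eq_zero fun σ _ => ?_
    by_cases hs : ∀ i, a (σ i) = (b i : ℤ)
    · exfalso
      apply hab
      have hbz : StrictMono (fun t => (b t : ℤ)) := fun i j hij => by simpa using hb hij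
      apply (StrictMono.range_inj hbz hv.1).1
      ext z
      constructor
      · rintro ⟨i, rfl⟩
        exact ⟨σ i, hs i⟩
      · rintro ⟨i, rfl⟩
        refine ⟨σ.symm i, ?_⟩
        have := hs (σ.symm i)
        simp only [Equiv.apply_symm_apply] at this
        exact this.symm
    · push Not at hs
      obtain ⟨i, hi⟩ := hs
      rw [Finset.prod_eq_zero (Finset.mem_univ i), smul_zero]
      rw [Matrix.of_apply, if_neg hi]

end

end Pool.Agent.H680_DP
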