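import Pool.Agent.H680_DP.T1b

set_option autoImplicit false

namespace Pool.Agent.H680_DP

open Finset Filter Topology Pool.Agent.H680_CP

section
variable {n k : ℕ} (b : Fin k → ℕ)

/-- the rows before summation over the last steps -/
noncomputable def rhoD (q : ℝ) (n L : ℕ) (a : Fin k → ℤ) (t : Fin k) (δ : Bool) (i : Fin k) : ℝ :=
  if 2 * a t = L + 2 * n + 2 * (t : ℕ) + 5 then
    (if δ = true then RwD q (k + 1) (n + k + 1) (b i) (((t : ℕ) : ℤ) + 1) L (a t - 1) else 0)
  else
    (if δ = true then
      q ^ ((L : ℤ) + 1 - a t) * RwD q (k + 1) (n + k + 1) (b i) ((t : ℕ) : ℤ) L (a t - 1)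
    else RwD q (k + 1) (n + k + 1) (b i) (((t : ℕ) : ℤ) + 1) L (a t))

theorem det_rhoD_zero (q : ℝ) (hq0 : 0 < q) (hb0 : ∀ t, 0 < b t)
    (hbM : ∀ t, b t ≤ n + k + 1) (L : ℕ) (a : Fin k → ℤ) (d : Fin k → Bool)
    (hv : ValidD n (L + 1) a)
    (hnv : ¬ ValidD n L (fun t => a t - (if d t = true then 1 else 0))) :
    (Matrix.of fun t i : Fin k => rhoD b q n L a t (d t) i).det = 0 := by
  have hq : q ≠ 0 := hq0.ne'
  obtain ⟨hv1, hv2, hv3⟩ := hv
  by_cases hT : ∃ t : Fin k, 2 * a t = L + 2 * n + 2 * (t : ℕ) + 5 ∧ d t = false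
  · obtain ⟨t, ht1, ht2⟩ := hT
    apply Matrix.det_eq_zero_of_row_eq_zero t
    intro i
    rw [Matrix.of_apply, rhoD, if_pos ht1, ht2]
    simp
  · push Not at hT
    have hT' : ∀ t : Fin k, d t = false → 2 * a t ≠ L + 2 * n + 2 * (t : ℕ) + 5 := by
      intro t h1 h2
      exact hT t h2 h1
    unfold ValidD at hnv
    rw [not_and_or, not_and_or] at hnv
    rcases hnv with h1 | h2 | h3
    · -- adjacency
      simp only [StrictMono, not_forall, not_lt] at h1
      obtain ⟨i, j, hij, hle⟩ := h1
      have haij : a i < a j := hv1 hij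
      have hdi : d i = false := by
        by_contra hd
        have hd : d i = true := by simpa using hd
        rw [if_pos hd] at hle
        split_ifs at hle <;> omega
      have hdj : d j = true := by
        by_contra hd
        have hd : d j = false := by simpa using hd
        rw [hdi, hd] at hle
        simp at hle
        omega
      have haj : a j = a i + 1 := by
        rw [hdi, hdj] at hle
        simp at hle
        omega
      have hji : (j : ℕ) = i + 1 := by
        by_contra hne
        have hij' : (i : ℕ) < j := hij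
        have hi1 : (i : ℕ) + 1 < k := by have := j.2; omega
        have h4 : a i < a ⟨i + 1, hi1⟩ := hv1 (by rw [Fin.lt_def]; simp)
        have h5 : a ⟨i + 1, hi1⟩ < a j := hv1 (by rw [Fin.lt_def]; simp; omega)
        omega
      apply det_zero_of_prop _ i j (ne_of_lt hij) (q ^ ((L : ℤ) + 1 - a j))
      intro s
      rw [Matrix.of_apply, Matrix.of_apply]
      have hTi := hT' i hdi
      have hTj : ¬ 2 * a j = L + 2 * n + 2 * (j : ℕ) + 5 := by
        rw [haj, hji]
        intro h'
        apply hTi
        push_cast at h' ⊢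
        omega
      rw [rhoD, rhoD, if_neg hTi, if_neg hTj, hdi, hdj, if_pos rfl, if_neg (by simp)]
      rw [haj, hji, add_sub_cancel_right]
      push_cast
      rfl
    · -- lower wall
      push Not at h2
      obtain ⟨t, ht⟩ := h2
      have h4 := hv2 t
      have hdt : d t = true := by
        by_contra hd
        have hd : d t = false := by simpa using hd
        rw [hd] at ht
        simp at ht
        push_cast at h4
        omega
      rw [if_pos hdt] at ht
      have h5 : 2 * a t = L + 3 := by push_cast at h4; omega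
      have ht0 : (t : ℕ) = 0 := by
        by_contra hne
        have hk : 0 < k := by have := t.2; omega
        have h6 : a ⟨0, hk⟩ < a t := hv1 (by rw [Fin.lt_def]; simp; omega)
        have h7 := hv2 ⟨0, hk⟩
        push_cast at h7
        omega
      apply Matrix.det_eq_zero_of_row_eq_zero t
      intro i
      rw [Matrix.of_apply, rhoD, if_neg (by omega), if_pos hdt, ht0]
      rw [Nat.cast_zero, Rw_W0 hq (hb0 i) (hbM i) L (a t - 1) (by omega), mul_zero]
    · -- upper wall
      push Not at h3
      obtain ⟨t, ht⟩ := h3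
      exfalso
      have h4 := hv3 t
      push_cast at h4
      have hdt : d t = false := by
        by_contra hd
        have hd : d t = true := by simpa using hd
        rw [if_pos hd] at ht
        omega
      rw [hdt] at ht
      simp at ht
      exact hT' t hdt (by omega)

/-- The determinant formula. -/
theorem main_claimD (q : ℝ) (hq0 : 0 < q) (hb : StrictMono b) (hb0 : ∀ t, 0 < b t)
    (hbM : ∀ t, b t ≤ n + k + 1) (L : ℕ) : ∀ (a : Fin k → ℤ) (d : Fin k → Bool), ValidD n L a →
      (∀ t : Fin k, 2 * a t = L + 2 * n + 2 * (t : ℕ) + 4 → d t = false) →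
      WsumD b q n L a d =
        q ^ (∑ t : Fin k, ((t : ℕ) + 1) * b t) * (rowmatD b q n L a d).det := by
  have hq : q ≠ 0 := hq0.ne'
  induction L with
  | zero => intro a d hv _; exact base_caseD b q hq0 hb hb0 hbM a d hv
  | succ L ih =>
    intro a d' hv hd'
    obtain ⟨hv1, hv2, hv3⟩ := id hv
    have hA : ∀ d : Fin k → Bool,
        WsumD b q n L (fun t => a t - (if d t = true then 1 else 0)) d =
          q ^ (∑ t : Fin k, ((t : ℕ) + 1) * b t) *
            (Matrix.of fun t i : Fin k => rhoD b q n L a t (d t) i).det := by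
      intro d
      by_cases hvd : ValidD n L (fun t => a t - (if d t = true then 1 else 0))
      · rw [ih _ d hvd]
        · congr 2
          ext t i
          rw [rowmatD, Matrix.of_apply, Matrix.of_apply, rhoD]
          cases hd : d t
          · have h1 := hvd.2.2 t
            simp only [hd] at h1
            simp at h1
            have h2 : ¬ 2 * a t = L + 2 * n + 2 * (t : ℕ) + 5 := by omega
            rw [if_neg h2]
            simp
          · by_cases hT : 2 * a t = L + 2 * n + 2 * (t : ℕ) + 5
            · rw [if_pos hT, if_neg]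
              · simp
              · simp
                omega
            · rw [if_neg hT, if_pos]
              · simp
                left
                congr 1
                ring
              · simp
                omega
        · intro t ht
          by_contra hd
          have hd : d t = true := by simpa using hd
          rw [if_pos hd] at ht
          have := hv3 t
          push_cast at this
          omega
      · rw [WsumD_invalid b q L _ d hvd, det_rhoD_zero b q hq0 hb0 hbM L a d hv hvd, mul_zero]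
    rw [WsumD_succ b q L a d' hv]
    have hB : ∑ d : Fin k → Bool, (∏ t, wsD q n (L + 1) a d d' t) *
        WsumD b q n L (fun t => a t - (if d t = true then 1 else 0)) d =
        q ^ (∑ t : Fin k, ((t : ℕ) + 1) * b t) *
          (Matrix.of fun t i : Fin k => ∑ δ : Bool,
            (if δ = false ∧ d' t = true ∧ 2 * a t ≠ ((L + 1 : ℕ) : ℤ) + 2 * n + 2 * (t : ℕ) + 3
              then q ^ (L + 1) else 1) * rhoD b q n L a t δ i).det := by
      rw [← det_multi (fun t δ => if δ = false ∧ d' t = true ∧
        2 * a t ≠ ((L + 1 : ℕ) : ℤ) + 2 * n + 2 * (t : ℕ) + 3 then q ^ (L + 1) else 1)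
        (fun t δ i => rhoD b q n L a t δ i)]
      rw [Finset.mul_sum]
      refine Finset.sum_congr rfl fun d _ => ?_
      rw [hA d]
      simp only [wsD]
      ring
    rw [hB]
    congr 1
    symm
    apply det_row_next _ _ (fun t => if 2 * a t = L + 2 * n + 2 * (t : ℕ) + 5 then
      q ^ (a t) else 0)
    intro t i
    rw [rowmatD, Matrix.of_apply, Matrix.of_apply]
    by_cases hT : 2 * a t = L + 2 * n + 2 * (t : ℕ) + 5
    · have hdt : d' t = false := hd' t (by push_cast; omega)
      rw [if_pos hT]
      have h1 : (if d' t = true ∧ 2 * a t ≠ ((L + 1 : ℕ) : ℤ) + 2 * n + 2 * (t : ℕ) + 3 then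
          q ^ (((L + 1 : ℕ) : ℤ) - a t) *
            RwD q (k + 1) (n + k + 1) (b i) ((t : ℕ) : ℤ) (L + 1) (a t)
          else RwD q (k + 1) (n + k + 1) (b i) (((t : ℕ) : ℤ) + 1) (L + 1) (a t)) =
          RwD q (k + 1) (n + k + 1) (b i) (((t : ℕ) : ℤ) + 1) (L + 1) (a t) := by
        rw [if_neg]
        rw [hdt]
        simp
      rw [h1, Rw_P2 hq]
      have h2 : (∑ δ : Bool,
            (if δ = false ∧ d' t = true ∧ 2 * a t ≠ ((L + 1 : ℕ) : ℤ) + 2 * n + 2 * (t : ℕ) + 3
              then q ^ (L + 1) else 1) * rhoD b q n L a t δ i) =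
          RwD q (k + 1) (n + k + 1) (b i) (((t : ℕ) : ℤ) + 1) L (a t - 1) := by
        rw [Fintype.sum_bool]
        rw [rhoD, rhoD, if_pos hT, if_pos hT]
        simp
      rw [h2]
      congr 2
      by_cases ht : (t : ℕ) + 1 < k
      · rw [dif_pos ht, Matrix.of_apply]
        have h3 : a t < a ⟨t + 1, ht⟩ := hv1 (by rw [Fin.lt_def]; simp)
        have h4 := hv3 ⟨t + 1, ht⟩
        simp only [] at h4
        push_cast at h4
        have h5 : a ⟨t + 1, ht⟩ = a t + 1 := by omega
        have hT1 : 2 * a ⟨t + 1, ht⟩ = L + 2 * n + 2 * ((⟨t + 1, ht⟩ : Fin k) : ℕ) + 5 := by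
          rw [h5]; push_cast; omega
        rw [Fintype.sum_bool]
        rw [rhoD, rhoD, if_pos hT1, if_pos hT1]
        simp [h5]
      · rw [dif_neg ht]
        have hk : (t : ℕ) + 1 = k := by have := t.2; omega
        have : ((t : ℕ) : ℤ) + 1 + 1 = ((k + 1 : ℕ) : ℤ) := by push_cast; omega
        rw [this]
        exact Rw_W1 hq (hb0 i) (hbM i) L (a t) (by push_cast; omega)
    · rw [if_neg hT, zero_mul, add_zero, Fintype.sum_bool]
      rw [rhoD, rhoD, if_neg hT, if_neg hT]
      by_cases hc : d' t = true ∧ 2 * a t ≠ ((L + 1 : ℕ) : ℤ) + 2 * n + 2 * (t : ℕ) + 3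
      · rw [if_pos hc, if_neg (by simp), if_pos rfl, if_pos ⟨rfl, hc⟩, if_neg (by simp), one_mul,
          Rw_P2 hq]
        have e1 : q ^ (((L + 1 : ℕ) : ℤ) - a t) * q ^ (a t) = q ^ (L + 1) := by
          rw [← zpow_add₀ hq, sub_add_cancel, zpow_natCast]
        rw [mul_add, ← mul_assoc (q ^ (((L + 1 : ℕ) : ℤ) - a t)) (q ^ a t), e1]
        push_cast
        rfl
      · rw [if_neg hc, if_neg (by simp), if_pos rfl, if_neg (fun h => hc h.2),
          if_neg (by simp), one_mul, one_mul, Rw_P1 hq, add_comm]

end

theorem T1D (q : ℝ) (hq0 : 0 < q) (n k : ℕ) (b : Fin k → ℕ) (hb : StrictMono b)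
    (hb0 : ∀ t, 0 < b t) (hbM : ∀ t, b t ≤ n + k + 1) (l : ℕ) :
    ∑ h ∈ FamD n b (2 * l), q ^ (wtD n b (2 * l) h) =
      q ^ (∑ t : Fin k, ((t : ℕ) + 1) * b t) *
        Matrix.det (Matrix.of fun t i : Fin k =>
          RwD q (k + 1) (n + k + 1) (b i) (((t : ℕ) : ℤ) + 1) (2 * l)
            ((l : ℤ) + (n + (t : ℕ) + 2))) := by
  classical
  set top : Fin k → ℤ := fun t => (l : ℤ) + (n + (t : ℕ) + 2) with htop
  have hv : ValidD n (2 * l) top := by
    refine ⟨fun i j hij => ?_, fun t => ?_, fun t => ?_⟩
    · have : (i : ℕ) < j := hij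
      simp only [htop]; omega
    · simp only [htop]; push_cast; omega
    · simp only [htop]; push_cast; omega
  have hmain := main_claimD b q hq0 hb hb0 hbM (2 * l) top (fun _ => false) hv (fun _ _ => rfl)
  have hR : rowmatD b q n (2 * l) top (fun _ => false) = Matrix.of fun t i : Fin k =>
          RwD q (k + 1) (n + k + 1) (b i) (((t : ℕ) : ℤ) + 1) (2 * l)
            ((l : ℤ) + (n + (t : ℕ) + 2)) := by
    ext t i
    simp [rowmatD, htop]
  rw [hR] at hmain
  rw [← hmain]
  unfold FamD WsumD
  rw [Finset.sum_filter]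
  refine Finset.sum_congr rfl fun h _ => ?_
  have hcond : ((∀ x ≤ 2 * l, ValidD n x (pos b h x)) ∧
      ∀ t : Fin k, 2 * pos b h (2 * l) t = ((2 * l : ℕ) : ℤ) + 2 * n + 2 * (t : ℕ) + 4) ↔
      ((∀ x ≤ 2 * l, ValidD n x (pos b h x)) ∧ pos b h (2 * l) = top) := by
    refine and_congr_right fun _ => ?_
    constructor
    · intro h1
      funext t
      have := h1 t
      simp only [htop]
      push_cast at this
      omega
    · intro h1 t
      rw [h1]
      simp only [htop]
      push_cast
      ring
  by_cases hc : (∀ x ≤ 2 * l, ValidD n x (pos b h x)) ∧ pos b h (2 * l) = top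
  · rw [if_pos hc, if_pos (hcond.2 hc)]
    rw [wtD_succ, wtD_update, Finset.prod_eq_one, mul_one]
    intro t _
    simp
  · rw [if_neg hc, if_neg fun h' => hc (hcond.1 h')]

end Pool.Agent.H680_DP
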